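import Mathlib

/-! The numerical part. -/

set_option autoImplicit false

namespace Pool.Agent.helper73.Nag

lemma var_identity (r : ℕ) (hr : 0 < r) (x : Fin r → ℝ) :
    ∑ k, (x k - (∑ i, x i) / r) ^ 2 = ∑ k, x k ^ 2 - (∑ i, x i) ^ 2 / r := by
  have hr' : (r : ℝ) ≠ 0 := by exact_mod_cast hr.ne'
  set S := ∑ i, x i with hS
  have h1 : ∀ k, (x k - S / r) ^ 2 = x k ^ 2 - 2 * (S / r) * x k + (S / r) ^ 2 := by
    intro k; ring
  simp only [h1]
  rw [Finset.sum_add_distrib, Finset.sum_sub_distrib, ← Finset.mul_sum, ← hS]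
  simp only [Finset.sum_const, Finset.card_univ, Fintype.card_fin, nsmul_eq_mul]
  field_simp
  ring

/-- no two disjoint unequal pairs -/
lemma no_two_pairs {r : ℕ} (hr : 0 < r) (x : Fin r → ℝ) {a b c e : Fin r}
    (hab : a ≠ b) (hac : a ≠ c) (hae : a ≠ e) (hbc : b ≠ c) (hbe : b ≠ e) (hce : c ≠ e)
    (h1 : ∑ k, x k ^ 2 - (∑ i, x i) ^ 2 / r < (x a - x b) ^ 2)
    (h2 : ∑ k, x k ^ 2 - (∑ i, x i) ^ 2 / r < (x c - x e) ^ 2) : False := by
  classical
  rw [← var_identity r hr x] at h1 h2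
  set S := (∑ i, x i) / r with hS
  have h3 : ∑ k ∈ ({a, b, c, e} : Finset (Fin r)), (x k - S) ^ 2 ≤ ∑ k, (x k - S) ^ 2 :=
    Finset.sum_le_sum_of_subset_of_nonneg (Finset.subset_univ _) (fun k _ _ => sq_nonneg _)
  rw [Finset.sum_insert (by simp [hab, hac, hae]), Finset.sum_insert (by simp [hbc, hbe]),
    Finset.sum_insert (by simp [hce]), Finset.sum_singleton] at h3
  nlinarith [sq_nonneg (x a + x b - 2 * S), sq_nonneg (x c + x e - 2 * S)]

lemma exists_avoid {r : ℕ} (hr : 5 ≤ r) (s : Finset (Fin r)) (hs : s.card ≤ 4) :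
    ∃ c, c ∉ s := by
  by_contra hcon
  push Not at hcon
  have h1 : (Finset.univ : Finset (Fin r)) ⊆ s := fun x _ => hcon x
  have h2 := Finset.card_le_card h1
  rw [Finset.card_univ, Fintype.card_fin] at h2
  omega

lemma almost_const {r : ℕ} (hr : 5 ≤ r) (μ : Fin r → ℕ)
    (h : ∀ i j, μ i ≠ μ j →
      ∑ k, (μ k : ℝ) ^ 2 - (∑ i, (μ i : ℝ)) ^ 2 / r < ((μ i : ℝ) - μ j) ^ 2) :
    ∃ (i0 : Fin r) (m : ℕ), ∀ i, i ≠ i0 → μ i = m := by
  classical
  by_cases hall : ∀ i j, μ i = μ j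
  · exact ⟨⟨0, by omega⟩, μ ⟨0, by omega⟩, fun i _ => hall _ _⟩
  push Not at hall
  obtain ⟨a, b, hab⟩ := hall
  have hne : a ≠ b := fun h => hab (by rw [h])
  have hrest : ∀ c e, c ≠ a → c ≠ b → e ≠ a → e ≠ b → μ c = μ e := by
    intro c e hca hcb hea heb
    by_contra hce
    have hce' : c ≠ e := fun h => hce (by rw [h])
    exact no_two_pairs (by omega) (fun k => (μ k : ℝ)) hne hca.symm hea.symm hcb.symm heb.symm hce'
      (h a b hab) (h c e hce)
  obtain ⟨c, hc⟩ := exists_avoid hr {a, b} (by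
    exact le_trans (Finset.card_le_two) (by norm_num))
  simp only [Finset.mem_insert, Finset.mem_singleton, not_or] at hc
  obtain ⟨e, he⟩ := exists_avoid hr {a, b, c} (by
    exact le_trans (Finset.card_le_three) (by norm_num))
  simp only [Finset.mem_insert, Finset.mem_singleton, not_or] at he
  by_cases ha : μ a = μ c
  · refine ⟨b, μ c, fun i hi => ?_⟩
    by_cases hia : i = a
    · rw [hia, ha]
    · exact hrest i c hia hi hc.1 hc.2
  · by_cases hb : μ b = μ c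
    · refine ⟨a, μ c, fun i hi => ?_⟩
      by_cases hib : i = b
      · rw [hib, hb]
      · exact hrest i c hi hib hc.1 hc.2
    · exfalso
      have hbe : μ b ≠ μ e := by
        rw [← hrest c e hc.1 hc.2 he.1 he.2.1]
        exact hb
      exact no_two_pairs (by omega) (fun k => (μ k : ℝ)) (a := a) (b := c) (c := b) (e := e)
        (Ne.symm hc.1) hne (Ne.symm he.1) hc.2 (Ne.symm he.2.2) (Ne.symm he.2.1)
        (h a c ha) (h b e hbe)

lemma choose_real (x : ℕ) : (((x + 1).choose 2 : ℕ) : ℝ) = ((x : ℝ) ^ 2 + x) / 2 := by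
  rw [Nat.cast_choose_two]
  push_cast
  ring

lemma choose_real' (x : ℕ) : (((x + 2).choose 2 : ℕ) : ℝ) = ((x : ℝ) ^ 2 + 3 * x + 2) / 2 := by
  rw [Nat.cast_choose_two]
  push_cast
  ring

/-- the final contradiction -/
lemma final_ineq (R κ b K S D s t : ℝ) (hs : s ^ 2 = R) (hs0 : 3 < s) (ht : t ^ 2 = R / κ)
    (ht0 : 0 ≤ t) (hK0 : 0 ≤ K) (hb : 1 ≤ b) (hKb : K ^ 2 ≤ b) (hbt : b < R / κ)
    (hS : R * b ≤ S) (hD0 : 0 ≤ D) (hD : R * D ^ 2 < S ^ 2)
    (h3 : S < 3 * D + 2 + 5 * (b + K) ^ 2 + 5 * (b + K))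
    (h : 5 * (R / κ) + 10 * t + 3 * s + 17 ≤ R) : False := by
  have hR : 0 < R := by rw [← hs]; positivity
  have hS0 : 0 ≤ S := le_trans (by positivity) hS
  -- s D < S
  have h1 : s * D < S := by
    apply lt_of_pow_lt_pow_left₀ 2 hS0
    calc (s * D) ^ 2 = R * D ^ 2 := by rw [← hs]; ring
      _ < S ^ 2 := hD
  have hKt : K < t := by
    apply lt_of_pow_lt_pow_left₀ 2 ht0
    rw [ht]
    linarith
  have hKb' : K ≤ b := by
    by_contra hcon
    push Not at hcon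
    nlinarith
  -- main estimate
  have h4 : (s - 3) * S < s * (2 + 5 * (b + K) ^ 2 + 5 * (b + K)) := by nlinarith
  have h5 : (s - 3) * (R * b) ≤ (s - 3) * S := mul_le_mul_of_nonneg_left hS (by linarith)
  have h6 : (2 + 5 * (b + K) ^ 2 + 5 * (b + K)) ≤ (5 * b + 10 * K + 17) * b := by nlinarith
  have h7 : (s - 3) * (R * b) < s * ((5 * b + 10 * K + 17) * b) :=
    lt_of_le_of_lt h5 (lt_of_lt_of_le h4 (mul_le_mul_of_nonneg_left h6 (by linarith)))
  have h8 : (s - 3) * R < s * (5 * b + 10 * K + 17) := by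
    have : ((s - 3) * R) * b < (s * (5 * b + 10 * K + 17)) * b := by linarith
    exact lt_of_mul_lt_mul_right this (by linarith)
  have h9 : s * (R - 3 * s) < s * (5 * b + 10 * K + 17) := by
    have : s * (R - 3 * s) = (s - 3) * R := by rw [← hs]; ring
    rw [this]; exact h8
  have h10 : R - 3 * s < 5 * b + 10 * K + 17 := lt_of_mul_lt_mul_left h9 (by linarith)
  linarith

theorem numeric (r d : ℕ) (μ : Fin r → ℕ) (κ : ℝ) (hκ : 5 ≤ κ)
    (h : 5 * (r / κ) + 10 * √(r / κ) + 3 * √(r : ℝ) + 17 ≤ r) (hd : 0 < d)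
    (h1 : ∀ j, 0 < μ j → ∑ i, μ i * μ i ≤ d * d + μ j)
    (h2 : ∀ i j, μ i ≠ μ j → (∑ k, (μ k : ℤ) ^ 2) - ((μ i : ℤ) - μ j) ^ 2 ≤ (d : ℤ) ^ 2)
    (h3 : ∀ M, (∀ i, μ i ≤ M) →
      ∑ i, (μ i + 1).choose 2 < (d + 2).choose 2 + 5 * (M + 1).choose 2) :
    (1 - κ / r ^ 2) * (∑ i, (μ i : ℝ)) ^ 2 ≤ r * (d : ℝ) ^ 2 := by
  classical
  by_contra hcon
  push Not at hcon
  set R : ℝ := (r : ℝ) with hR
  set D : ℝ := (d : ℝ) with hD
  have hD1 : 1 ≤ D := by rw [hD]; exact_mod_cast hd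
  have hR17 : 17 ≤ R := by
    have e1 : 0 ≤ √(R / κ) := Real.sqrt_nonneg _
    have e2 : 0 ≤ √R := Real.sqrt_nonneg _
    have e3 : 0 ≤ R / κ := by positivity
    linarith
  have hr17 : 17 ≤ r := by
    rw [hR] at hR17
    exact_mod_cast hR17
  have hR0 : 0 < R := by linarith
  have hκR : 0 ≤ κ / R ^ 2 := by positivity
  have hs2 : √R ^ 2 = R := Real.sq_sqrt hR0.le
  have hs3 : 3 < √R := by
    apply Real.lt_sqrt_of_sq_lt
    linarith
  have ht2 : √(R / κ) ^ 2 = R / κ := Real.sq_sqrt (by positivity)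
  set S := ∑ i, (μ i : ℝ) with hS
  have hS0 : 0 ≤ S := Finset.sum_nonneg (fun i _ => by positivity)
  -- `R D² < S²`
  have hRD : R * D ^ 2 < S ^ 2 := by
    have : 0 ≤ κ / R ^ 2 * S ^ 2 := by positivity
    linarith
  have hRD' : D ^ 2 < S ^ 2 / R := by
    rw [lt_div_iff₀ hR0]
    linarith
  obtain ⟨i0, m, hm⟩ := almost_const (by omega : 5 ≤ r) μ (by
    intro i j hij
    have e1 := h2 i j hij
    have e2 : (∑ k, (μ k : ℝ) ^ 2) - ((μ i : ℝ) - μ j) ^ 2 ≤ D ^ 2 := by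
      rw [hD]
      exact_mod_cast e1
    linarith)
  set n := μ i0 with hn
  have hsum : ∀ f : ℕ → ℝ, ∑ i, f (μ i) = (R - 1) * f m + f n := by
    intro f
    rw [← Finset.add_sum_erase _ _ (Finset.mem_univ i0)]
    have : ∀ i ∈ Finset.univ.erase i0, f (μ i) = f m := fun i hi => by
      rw [hm i (Finset.ne_of_mem_erase hi)]
    rw [Finset.sum_congr rfl this, Finset.sum_const, Finset.card_erase_of_mem (Finset.mem_univ _),
      Finset.card_univ, Fintype.card_fin, nsmul_eq_mul, Nat.cast_sub (by omega), Nat.cast_one, add_comm]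
  have hS1 : S = (R - 1) * m + n := hsum (fun x => (x : ℝ))
  have hS2 : ∑ i, (μ i : ℝ) ^ 2 = (R - 1) * (m : ℝ) ^ 2 + (n : ℝ) ^ 2 := hsum (fun x => (x : ℝ) ^ 2)
  have hxu : ∀ j, 0 < μ j → (R - 1) * (m : ℝ) ^ 2 + (n : ℝ) ^ 2 ≤ D ^ 2 + μ j := by
    intro j hj
    have e1 := h1 j hj
    have e2 : (∑ i, (μ i : ℝ) * μ i) ≤ D * D + μ j := by
      rw [hD]
      exact_mod_cast e1
    have e3 : (∑ i, (μ i : ℝ) * μ i) = ∑ i, (μ i : ℝ) ^ 2 :=
      Finset.sum_congr rfl (fun i _ => by ring)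
    rw [e3, hS2] at e2
    linarith
  -- another index
  obtain ⟨j0, hj0⟩ := exists_avoid (by omega : 5 ≤ r) {i0} (by simp)
  rw [Finset.mem_singleton] at hj0
  have hj0m : μ j0 = m := hm j0 hj0
  have hSpos : 0 < S := by
    by_contra h0
    have : S = 0 := le_antisymm (not_lt.mp h0) hS0
    rw [this] at hRD
    nlinarith [mul_pos hR0 (by positivity : 0 < D ^ 2)]
  -- the basic inequality
  have hbasic : ∀ j, 0 < μ j → ((n : ℝ) - m) ^ 2 * (1 - 1 / R) + κ * S ^ 2 / R ^ 3 < μ j := by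
    intro j hj
    have e1 := hxu j hj
    have e2 : R * D ^ 2 < S ^ 2 - κ / R ^ 2 * S ^ 2 := by linarith
    have e3 : D ^ 2 < S ^ 2 / R - κ * S ^ 2 / R ^ 3 := by
      have : S ^ 2 / R - κ * S ^ 2 / R ^ 3 = (S ^ 2 - κ / R ^ 2 * S ^ 2) / R := by
        field_simp
      rw [this, lt_div_iff₀ hR0]
      linarith
    have e4 : (R - 1) * (m : ℝ) ^ 2 + (n : ℝ) ^ 2 = S ^ 2 / R + ((n : ℝ) - m) ^ 2 * (1 - 1 / R) := by
      rw [hS1]
      field_simp
      ring
    linarith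
  rcases Nat.eq_zero_or_pos m with hm0 | hm0
  · -- only one point
    have hn0 : 0 < n := by
      by_contra h0
      have : n = 0 := by omega
      rw [hS1, hm0, this] at hSpos
      simp at hSpos
    have e1 := hxu i0 (by rw [← hn]; exact hn0)
    rw [← hn, hm0] at e1
    rw [hS1, hm0] at hRD
    simp only [Nat.cast_zero, mul_zero, zero_add, ne_eq, OfNat.ofNat_ne_zero, not_false_eq_true,
      zero_pow] at e1 hRD
    have hn1 : (1 : ℝ) ≤ n := by exact_mod_cast hn0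
    have e2 : R * ((n : ℝ) ^ 2 - n) < n ^ 2 := by nlinarith
    have e3 : (n : ℝ) < 2 := by
      by_contra hc
      push Not at hc
      nlinarith [mul_nonneg (by linarith : (0:ℝ) ≤ R - 17) (by nlinarith : (0 : ℝ) ≤ (n : ℝ) ^ 2 - n)]
    have e4 : n < 2 := by exact_mod_cast e3
    have e5 : n = 1 := by omega
    rw [e5] at hRD
    simp only [Nat.cast_one, one_pow] at hRD
    nlinarith [mul_le_mul_of_nonneg_left (by nlinarith : (1:ℝ) ≤ D ^ 2) hR0.le]
  have hm1 : (1 : ℝ) ≤ m := by exact_mod_cast hm0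
  have hbm := hbasic j0 (by rw [hj0m]; exact hm0)
  rw [hj0m] at hbm
  rcases Nat.eq_zero_or_pos n with hn0 | hn0
  · -- one point is missing
    rw [hS1, hn0] at hbm
    simp only [Nat.cast_zero, add_zero, zero_sub, neg_sq] at hbm
    have e1 : (m : ℝ) ^ 2 * ((1 - 1 / R) + κ * (R - 1) ^ 2 / R ^ 3) < m := by
      have : (m : ℝ) ^ 2 * ((1 - 1 / R) + κ * (R - 1) ^ 2 / R ^ 3) =
        (m : ℝ) ^ 2 * (1 - 1 / R) + κ * ((R - 1) * m) ^ 2 / R ^ 3 := by ring
      rw [this]; exact hbm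
    have e2 : 1 ≤ (1 - 1 / R) + κ * (R - 1) ^ 2 / R ^ 3 := by
      have : (1 - 1 / R) + κ * (R - 1) ^ 2 / R ^ 3 - 1 = (κ * (R - 1) ^ 2 - R ^ 2) / R ^ 3 := by
        field_simp
        ring
      have e3 : 0 ≤ (κ * (R - 1) ^ 2 - R ^ 2) / R ^ 3 := by
        apply div_nonneg _ (by positivity)
        nlinarith [mul_nonneg (by linarith : 0 ≤ κ - 5) (sq_nonneg (R - 1))]
      linarith
    nlinarith [mul_le_mul_of_nonneg_left e2 (by positivity : (0:ℝ) ≤ (m : ℝ) ^ 2)]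
  have hn1 : (1 : ℝ) ≤ n := by exact_mod_cast hn0
  have hbn := hbasic i0 (by rw [← hn]; exact hn0)
  rw [← hn] at hbn
  -- the general case
  have key : ∀ (b K : ℕ), 0 < b → (∀ i, μ i ≤ b + K) → R * b ≤ S → ((n : ℝ) - m) ^ 2 = (K : ℝ) ^ 2 →
      ((n : ℝ) - m) ^ 2 * (1 - 1 / R) + κ * S ^ 2 / R ^ 3 < b → False := by
    intro b K hb0 hM hSb hK hlt
    have hb1 : (1 : ℝ) ≤ b := by exact_mod_cast hb0
    rw [hK] at hlt
    have e1 : κ * S ^ 2 / R ^ 3 < b := by
      have : 0 ≤ (K : ℝ) ^ 2 * (1 - 1 / R) := by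
        apply mul_nonneg (sq_nonneg _)
        rw [sub_nonneg, div_le_one hR0]
        linarith
      linarith
    have e2 : κ * (b : ℝ) ^ 2 / R ≤ κ * S ^ 2 / R ^ 3 := by
      rw [div_le_div_iff₀ hR0 (by positivity)]
      have e3 : (R * b) ^ 2 ≤ S ^ 2 := pow_le_pow_left₀ (by positivity) hSb 2
      have e4 : κ * (b : ℝ) ^ 2 * R ^ 3 = κ * R * (R * b) ^ 2 := by ring
      have e5 : κ * S ^ 2 * R = κ * R * S ^ 2 := by ring
      rw [e4, e5]
      exact mul_le_mul_of_nonneg_left e3 (by positivity)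
    have e3 : κ * (b : ℝ) ^ 2 < b * R := by
      have := lt_of_le_of_lt e2 e1
      rwa [div_lt_iff₀ hR0] at this
    have e4 : κ * b < R := by
      have : b * (κ * b) < b * R := by linarith [show (b:ℝ) * (κ * b) = κ * (b : ℝ) ^ 2 by ring]
      exact lt_of_mul_lt_mul_left this (by linarith)
    have hbt : (b : ℝ) < R / κ := by
      rw [lt_div_iff₀ (by linarith)]
      linarith
    have hKb : (K : ℝ) ^ 2 ≤ b := by
      by_contra hcon2
      push Not at hcon2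
      have e5 : b < K ^ 2 := by exact_mod_cast hcon2
      have e6 : (b : ℝ) + 1 ≤ (K : ℝ) ^ 2 := by exact_mod_cast e5
      have e7 : (K : ℝ) ^ 2 * (1 - 1 / R) < b := by
        have : 0 ≤ κ * S ^ 2 / R ^ 3 := by positivity
        linarith
      have e8 : ((b : ℝ) + 1) * (1 - 1 / R) < b := by
        have e9 : 0 ≤ 1 - 1 / R := by
          rw [sub_nonneg, div_le_one hR0]
          linarith
        exact lt_of_le_of_lt (mul_le_mul_of_nonneg_right e6 e9) e7
      have e9 : ((b : ℝ) + 1) * (R - 1) < b * R := by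
        have : ((b : ℝ) + 1) * (1 - 1 / R) = ((b : ℝ) + 1) * (R - 1) / R := by
          field_simp
        rw [this, div_lt_iff₀ hR0] at e8
        exact e8
      nlinarith
    have h4 := h3 (b + K) hM
    have h5 : ∑ i, (((μ i + 1).choose 2 : ℕ) : ℝ) <
        (((d + 2).choose 2 : ℕ) : ℝ) + 5 * (((b + K + 1).choose 2 : ℕ) : ℝ) := by exact_mod_cast h4
    simp only [choose_real, choose_real'] at h5
    rw [← Finset.sum_div, Finset.sum_add_distrib, ← hS, hS2] at h5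
    push_cast at h5
    rw [← hD] at h5
    have e10 : S ^ 2 / R ≤ (R - 1) * (m : ℝ) ^ 2 + (n : ℝ) ^ 2 := by
      have : (R - 1) * (m : ℝ) ^ 2 + (n : ℝ) ^ 2 =
          S ^ 2 / R + ((n : ℝ) - m) ^ 2 * (1 - 1 / R) := by
        rw [hS1]
        field_simp
        ring
      rw [this]
      have : 0 ≤ ((n : ℝ) - m) ^ 2 * (1 - 1 / R) := by
        apply mul_nonneg (sq_nonneg _)
        rw [sub_nonneg, div_le_one hR0]
        linarith
      linarith
    exact final_ineq R κ b K S D (√R) (√(R / κ)) hs2 hs3 ht2 (Real.sqrt_nonneg _) (by positivity)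
      hb1 hKb hbt hSb (by linarith) hRD (by linarith) h
  rcases Nat.le_total m n with hmn | hmn
  · obtain ⟨K, hK⟩ := Nat.exists_eq_add_of_le hmn
    refine key m K hm0 ?_ ?_ ?_ hbm
    · intro i
      by_cases hi : i = i0
      · rw [hi, ← hn, hK]
      · rw [hm i hi]; omega
    · rw [hS1, hK]
      push_cast
      have : (0 : ℝ) ≤ K := by positivity
      linarith
    · rw [hK]
      push_cast
      ring
  · obtain ⟨K, hK⟩ := Nat.exists_eq_add_of_le hmn
    refine key n K hn0 ?_ ?_ ?_ hbn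
    · intro i
      by_cases hi : i = i0
      · rw [hi, ← hn]; omega
      · rw [hm i hi]; omega
    · rw [hS1, hK]
      push_cast
      have : (0 : ℝ) ≤ K := by positivity
      nlinarith
    · rw [hK]
      push_cast
      ring

end Pool.Agent.helper73.Nag
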