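import Pool.Agent.helper73.Nag.Gen

/-! The dichotomy at very general points. -/

set_option autoImplicit false

open MvPolynomial Pool.Agent.helper5.NBS

namespace Pool.Agent.helper73.Nag

/-- over a domain, a matrix is either injective up to a denominator or has a kernel vector -/
lemma dichotomy {A : Type} [CommRing A] [IsDomain A] {ι κ : Type} [Fintype ι] [Fintype κ]
    [DecidableEq ι] [DecidableEq κ] (M : Matrix ι κ A) :
    (∃ (q : A) (N : Matrix κ ι A), q ≠ 0 ∧ N * M = q • (1 : Matrix κ κ A)) ∨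
    (∃ v : κ → A, v ≠ 0 ∧ M.mulVec v = 0) := by
  classical
  by_cases h : ∃ v : κ → A, v ≠ 0 ∧ M.mulVec v = 0
  · exact Or.inr h
  left
  push Not at h
  set K := FractionRing A with hK
  set MK : Matrix ι κ K := M.map (algebraMap A K) with hMK
  have hinj : Function.Injective (algebraMap A K) := IsFractionRing.injective A K
  have hker : LinearMap.ker (Matrix.toLin' MK) = ⊥ := by
    rw [LinearMap.ker_eq_bot']
    intro c hc
    rw [Matrix.toLin'_apply] at hc
    obtain ⟨b, hb⟩ := IsLocalization.exist_integer_multiples_of_finset (nonZeroDivisors A)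
      (Finset.univ.image c)
    have hb' : ∀ k, ∃ a : A, algebraMap A K a = (b : A) • c k := by
      intro k
      obtain ⟨a, ha⟩ := hb (c k) (Finset.mem_image_of_mem _ (Finset.mem_univ k))
      exact ⟨a, ha⟩
    choose v hv using hb'
    by_contra hc0
    have hb0 : (algebraMap A K (b : A)) ≠ 0 := by
      rw [Ne, map_eq_zero_iff _ hinj]
      exact nonZeroDivisors.ne_zero b.2
    apply h v
    · intro hv0
      apply hc0
      funext k
      have h1 := hv k
      rw [hv0, Pi.zero_apply, map_zero, Algebra.smul_def] at h1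
      exact (mul_eq_zero.mp h1.symm).resolve_left hb0
    · funext i
      apply hinj
      rw [Pi.zero_apply, map_zero, Matrix.mulVec, dotProduct, map_sum]
      have h2 := congrFun hc i
      rw [Matrix.mulVec, dotProduct, Pi.zero_apply] at h2
      have h3 : ∑ k, algebraMap A K (M i k * v k) = algebraMap A K (b : A) * ∑ k, MK i k * c k := by
        rw [Finset.mul_sum]
        apply Finset.sum_congr rfl
        intro k _
        rw [map_mul, hv, Algebra.smul_def, hMK, Matrix.map_apply]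
        ring
      rw [h3, h2, mul_zero]
  obtain ⟨g, hg⟩ := LinearMap.exists_leftInverse_of_injective _ hker
  set N := LinearMap.toMatrix' g with hN
  have hNM : N * MK = 1 := by
    have h1 : LinearMap.toMatrix' (g ∘ₗ Matrix.toLin' MK) =
      N * LinearMap.toMatrix' (Matrix.toLin' MK) := LinearMap.toMatrix'_comp _ _
    rw [hg, LinearMap.toMatrix'_id, LinearMap.toMatrix'_toLin'] at h1
    exact h1.symm
  obtain ⟨b, hb⟩ := IsLocalization.exist_integer_multiples_of_finset (nonZeroDivisors A)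
    (Finset.univ.image fun x : κ × ι => N x.1 x.2)
  have hb' : ∀ (k : κ) (i : ι), ∃ a : A, algebraMap A K a = (b : A) • N k i := by
    intro k i
    obtain ⟨a, ha⟩ := hb (N k i) (Finset.mem_image_of_mem (fun x : κ × ι => N x.1 x.2)
      (Finset.mem_univ (k, i)))
    exact ⟨a, ha⟩
  choose N' hN' using hb'
  refine ⟨b, Matrix.of N', nonZeroDivisors.ne_zero b.2, ?_⟩
  ext k l
  apply hinj
  rw [Matrix.mul_apply, map_sum, Matrix.smul_apply, smul_eq_mul, map_mul]
  have h4 : ∑ x, algebraMap A K (Matrix.of N' k x * M x l) =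
      algebraMap A K (b : A) * (N * MK) k l := by
    rw [Matrix.mul_apply, Finset.mul_sum]
    apply Finset.sum_congr rfl
    intro i _
    rw [map_mul, Matrix.of_apply, hN', Algebra.smul_def, hMK, Matrix.map_apply]
    ring
  rw [h4, hNM]
  congr 1
  rw [Matrix.one_apply, Matrix.one_apply]
  split_ifs <;> simp

/-- a family of curves with prescribed multiplicities -/
def IsFam {r : ℕ} {d : ℕ} (m : Fin r → ℕ) (v : Ex d → PtRing r) : Prop :=
  ∀ i, Fam v ∈ Dl i ^ m i

lemma IsFam.lin {r d : ℕ} {m : Fin r → ℕ} {v : Ex d → PtRing r} (h : IsFam m v)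
    (p : Fin r → Fin 2 → ℂ) : polyOf (Ex d) (fun k => evP p (v k)) ∈ Lin d m p := by
  refine ⟨wdeg_polyOf _, fun i => ?_⟩
  rw [← evS_Fam]
  exact evS_mem p i (h i)

lemma dich (r d : ℕ) (m : Fin r → ℕ) :
    ∃ q : PtRing r, q ≠ 0 ∧
      ((∀ p : Fin r → Fin 2 → ℂ, evP p q ≠ 0 → ∀ F ∈ Lin d m p, F = 0) ∨
       (∃ v : Ex d → PtRing r, IsFam m v ∧ ∃ k, v k = q)) := by
  classical
  have hfin : ∀ i, Finite {n : Fin 2 →₀ ℕ // n.degree < m i} := fun i => finite_exps (m i)
  have : ∀ i, Fintype {n : Fin 2 →₀ ℕ // n.degree < m i} := fun i => Fintype.ofFinite _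
  rcases dichotomy (condMat (Ex d) m) with ⟨q, N, hq, hN⟩ | ⟨v, hv0, hv⟩
  · refine ⟨q, hq, Or.inl ?_⟩
    rintro p hp F ⟨hF1, hF2⟩
    have hsup := wdeg_le_iff.mp hF1
    have hFe : polyOf (Ex d) (fun k => coeff k.1 F) = F := by
      ext n
      by_cases hn : n ∈ Ex d
      · exact coeff_polyOf (Ex d) (fun k => coeff k.1 F) ⟨n, hn⟩
      · have h1 : n ∉ (polyOf (Ex d) (fun k => coeff k.1 F)).support := fun h =>
          hn (support_polyOf _ _ h)
        have h2 : n ∉ F.support := fun h => hn (hsup h)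
        rw [notMem_support_iff.mp h1, notMem_support_iff.mp h2]
    have h3 : ((condMat (Ex d) m).map (evP p)).mulVec (fun k => coeff k.1 F) = 0 := by
      rw [mulVec_eq_zero_iff, hFe]
      exact hF2
    have h4 : (N.map (evP p)) * ((condMat (Ex d) m).map (evP p)) = (evP p q) • 1 := by
      rw [← Matrix.map_mul, hN]
      ext k l
      rw [Matrix.map_apply, Matrix.smul_apply, Matrix.smul_apply, smul_eq_mul, smul_eq_mul, map_mul,
        Matrix.one_apply, Matrix.one_apply]
      split_ifs <;> simp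
    have h5 : ((evP p q) • (1 : Matrix (Ex d) (Ex d) ℂ)).mulVec (fun k => coeff k.1 F) = 0 := by
      rw [← h4, ← Matrix.mulVec_mulVec, h3, Matrix.mulVec_zero]
    rw [Matrix.smul_mulVec, Matrix.one_mulVec] at h5
    have h6 : (fun k : Ex d => coeff k.1 F) = 0 := (smul_eq_zero.mp h5).resolve_left hp
    rw [← hFe, h6]
    simp [polyOf]
  · obtain ⟨k, hk⟩ := Function.ne_iff.mp hv0
    exact ⟨v k, hk, Or.inr ⟨v, Fam_mem m v hv, k, rfl⟩⟩

/-- the polynomial of the dichotomy -/
noncomputable def qq (r d : ℕ) (m : Fin r → ℕ) : PtRing r := Classical.choose (dich r d m)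

lemma qq_ne (r d : ℕ) (m : Fin r → ℕ) : qq r d m ≠ 0 := (Classical.choose_spec (dich r d m)).1

lemma qq_spec (r d : ℕ) (m : Fin r → ℕ) :
      ((∀ p : Fin r → Fin 2 → ℂ, evP p (qq r d m) ≠ 0 → ∀ F ∈ Lin d m p, F = 0) ∨
       (∃ v : Ex d → PtRing r, IsFam m v ∧ ∃ k, v k = qq r d m)) :=
  (Classical.choose_spec (dich r d m)).2

/-- the permuted family -/
noncomputable def rhoP {r : ℕ} (σ : Equiv.Perm (Fin r)) : PtRing r →ₐ[ℂ] PtRing r :=
  rename (fun ij => (σ ij.1, ij.2))

lemma evP_rhoP {r : ℕ} (σ : Equiv.Perm (Fin r)) (p : Fin r → Fin 2 → ℂ) (a : PtRing r) :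
    evP p (rhoP σ a) = evP (fun i => p (σ i)) a := by
  rw [evP, evP, rhoP, eval_rename]
  rfl

lemma evP_eq_zero {r : ℕ} {a : PtRing r} (h : ∀ p : Fin r → Fin 2 → ℂ, evP p a = 0) : a = 0 := by
  apply MvPolynomial.funext
  intro x
  have := h (fun i k => x (i, k))
  rw [evP] at this
  simpa using this

/-- very general points -/
structure VG {r : ℕ} (p : Fin r → Fin 2 → ℂ) : Prop where
  inj : Function.Injective p
  qn : ∀ (d : ℕ) (m : Fin r → ℕ), evP p (qq r d m) ≠ 0

lemma VG.fam {r : ℕ} {p : Fin r → Fin 2 → ℂ} (hp : VG p) {d : ℕ} {m : Fin r → ℕ} {F : R2}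
    (hF : F ∈ Lin d m p) (hF0 : F ≠ 0) :
    ∃ v : Ex d → PtRing r, IsFam m v ∧ polyOf (Ex d) (fun k => evP p (v k)) ≠ 0 := by
  rcases qq_spec r d m with h | ⟨v, hv, k, hk⟩
  · exact absurd (h p (hp.qn d m) F hF) hF0
  · refine ⟨v, hv, ?_⟩
    intro h0
    have h1 := coeff_polyOf (Ex d) (fun k => evP p (v k)) k
    rw [h0, coeff_zero, hk] at h1
    exact hp.qn d m h1.symm

/-- permutation of the multiplicities -/
lemma VG.perm {r : ℕ} {p : Fin r → Fin 2 → ℂ} (hp : VG p) {d : ℕ} {m : Fin r → ℕ} {F : R2}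
    (hF : F ∈ Lin d m p) (hF0 : F ≠ 0) (σ : Equiv.Perm (Fin r)) :
    ∃ G ∈ Lin d (m ∘ σ) p, G ≠ 0 := by
  obtain ⟨v, hv, hv0⟩ := hp.fam hF hF0
  rcases qq_spec r d (m ∘ σ) with h | ⟨w, hw, k, hk⟩
  · exfalso
    -- the permuted family
    have hz : ∀ k, v k = 0 := by
      intro k
      have h1 : rhoP σ.symm (v k) * qq r d (m ∘ σ) = 0 := by
        apply evP_eq_zero
        intro p'
        rw [map_mul, mul_eq_zero]
        by_contra hcon
        push Not at hcon
        obtain ⟨hc1, hc2⟩ := hcon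
        apply hc1
        rw [evP_rhoP]
        have h2 := hv.lin (fun i => p' (σ.symm i))
        have h3 : polyOf (Ex d) (fun k => evP (fun i => p' (σ.symm i)) (v k)) ∈ Lin d (m ∘ σ) p' := by
          refine ⟨h2.1, fun i => ?_⟩
          have h4 := h2.2 (σ i)
          simpa using h4
        have h5 := h p' hc2 _ h3
        have h6 := coeff_polyOf (Ex d) (fun k => evP (fun i => p' (σ.symm i)) (v k)) k
        rw [h5, coeff_zero] at h6
        exact h6.symm
      have h2 := (mul_eq_zero.mp h1).resolve_right (qq_ne r d (m ∘ σ))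
      rw [rhoP] at h2
      have hinj : Function.Injective (fun ij : Fin r × Fin 2 => ((σ.symm ij.1, ij.2) : Fin r × Fin 2)) := by
        rintro ⟨a, b⟩ ⟨a', b'⟩ hab
        simp only [Prod.mk.injEq, EmbeddingLike.apply_eq_iff_eq] at hab
        exact Prod.ext hab.1 hab.2
      exact rename_injective _ hinj (by rw [h2, map_zero])
    apply hv0
    rw [polyOf]
    apply Finset.sum_eq_zero
    intro k _
    rw [hz k, map_zero, monomial_zero]
  · refine ⟨_, hw.lin p, ?_⟩
    intro h0
    have h1 := coeff_polyOf (Ex d) (fun k => evP p (w k)) k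
    rw [h0, coeff_zero, hk] at h1
    exact hp.qn d (m ∘ σ) h1.symm

/-- derivatives of a family -/
lemma VG.deriv {r : ℕ} {p : Fin r → Fin 2 → ℂ} (hp : VG p) {d : ℕ} {m : Fin r → ℕ} {F : R2}
    (hF : F ∈ Lin d m p) (hF0 : F ≠ 0) :
    ∃ F' ∈ Lin d m p, F' ≠ 0 ∧ ∀ (j : Fin r) (k : Fin 2), ∃ G : R2,
      G ∈ Lin d (Function.update m j (m j - 1)) p ∧ G + pderiv k F' ∈ ptIdeal (p j) ^ m j := by
  obtain ⟨v, hv, hv0⟩ := hp.fam hF hF0
  refine ⟨_, hv.lin p, hv0, fun j k => ?_⟩
  refine ⟨polyOf (Ex d) (fun l => evP p (pderiv (j, k) (v l))), ⟨wdeg_polyOf _, fun i => ?_⟩, ?_⟩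
  · rw [← evS_Fam, ← Dp_Fam]
    by_cases hij : i = j
    · subst hij
      rw [Function.update_self]
      exact evS_mem p i (Dp_same i k (hv i))
    · rw [Function.update_of_ne hij]
      exact evS_mem p i (Dp_other hij k (hv i))
  · rw [← evS_Fam, ← evS_Fam, ← Dp_Fam, ← evS_Dx, ← map_add]
    exact evS_mem p j (Dp_add_Dx j k (hv j))

end Pool.Agent.helper73.Nag
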