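import Pool.Agent.helper5.NBSLocal
import Pool.Agent.helper73.Nag.Gen2
import Pool.Agent.helper89.Segre.Results

/-! From forms in three variables to polynomials in two variables. -/

set_option autoImplicit false

open MvPolynomial Pool.Agent.helper5.NBS Pool.Agent.helper89.Segre

namespace Pool.Agent.helper73.Nag

/-- coefficient of a product of univariate polynomials in distinct variables -/
lemma coeff_prod_aeval2 (q : Fin 2 → Polynomial ℂ) (n : Fin 2 →₀ ℕ) :
    coeff n (∏ j, Polynomial.aeval (X j : MvPolynomial (Fin 2) ℂ) (q j)) =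
      ∏ j, (q j).coeff (n j) := by
  classical
  have h1 : ∀ j, Polynomial.aeval (X j : MvPolynomial (Fin 2) ℂ) (q j) =
      ∑ i ∈ Finset.range ((q j).natDegree + 1), C ((q j).coeff i) * X j ^ i := by
    intro j
    rw [Polynomial.aeval_eq_sum_range]
    apply Finset.sum_congr rfl
    intro i _
    rw [Algebra.smul_def]; rfl
  simp_rw [h1]
  rw [Finset.prod_univ_sum, coeff_sum]
  have h2 : ∀ x : Fin 2 → ℕ, coeff n (∏ j, (C ((q j).coeff (x j)) * X j ^ x j :
      MvPolynomial (Fin 2) ℂ)) = if x = n then ∏ j, (q j).coeff (x j) else 0 := by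
    intro x
    rw [Finset.prod_mul_distrib, ← map_prod, coeff_C_mul]
    have h3 : ∏ j, (X j : MvPolynomial (Fin 2) ℂ) ^ x j =
        monomial (Finsupp.equivFunOnFinite.symm x) 1 := by
      rw [monomial_eq]
      simp only [C_1, one_mul]
      rw [Finsupp.prod_fintype]
      · rfl
      · intro i; simp
    rw [h3, coeff_monomial]
    have h4 : (Finsupp.equivFunOnFinite.symm x = n) ↔ (x = n) := by
      constructor
      · rintro rfl; rfl
      · intro h; ext j; exact congrFun h j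
    by_cases h5 : x = n
    · rw [if_pos h5, if_pos (h4.mpr h5), mul_one]
    · rw [if_neg h5, if_neg (fun h => h5 (h4.mp h)), mul_zero]
  rw [Finset.sum_congr rfl fun x _ => h2 x]
  rw [Finset.sum_ite_eq']
  split_ifs with h6
  · rfl
  · rw [Fintype.mem_piFinset] at h6
    push Not at h6
    obtain ⟨j, hj⟩ := h6
    rw [Finset.mem_range, not_lt] at hj
    symm
    apply Finset.prod_eq_zero (Finset.mem_univ j)
    apply Polynomial.coeff_eq_zero_of_natDegree_lt
    omega

lemma coeff_trans_monomial (q : Fin 2 → ℂ) (s n : Fin 2 →₀ ℕ) (c : ℂ) :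
    coeff n (trans q (monomial s c)) = c * (gg (q 0) (s 0) (n 0) * gg (q 1) (s 1) (n 1)) := by
  have h0 : trans q (monomial s c) = aeval (R := ℂ) (fun j : Fin 2 => (X j + C (q j) : R2))
      (monomial s c) := rfl
  rw [h0, aeval_monomial, Finsupp.prod_fintype _ _ (fun i => by simp)]
  have h1 : ∀ j : Fin 2, (X j + C (q j) : R2) ^ s j =
      Polynomial.aeval (X j : R2) ((Polynomial.X + Polynomial.C (q j)) ^ s j) := by
    intro j
    simp [algebraMap_eq]
  simp_rw [h1]
  rw [algebraMap_eq, coeff_C_mul, coeff_prod_aeval2, Fin.prod_univ_two]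
  simp only [Polynomial.coeff_X_add_C_pow]
  rfl

/-- exponent from a pair -/
noncomputable def e2 (e : ℕ × ℕ) : Fin 2 →₀ ℕ := Finsupp.single 0 e.1 + Finsupp.single 1 e.2

lemma e2_zero (e : ℕ × ℕ) : e2 e 0 = e.1 := by simp [e2]
lemma e2_one (e : ℕ × ℕ) : e2 e 1 = e.2 := by simp [e2]

lemma e2_eq (n : Fin 2 →₀ ℕ) : e2 (n 0, n 1) = n := by
  ext i
  fin_cases i
  · exact e2_zero _
  · exact e2_one _

/-- the polynomial with coefficients `c` -/
noncomputable def Gc (d : ℕ) (c : tri d → ℂ) : R2 := ∑ e : tri d, monomial (e2 e) (c e)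

lemma coeff_Gc {d : ℕ} (c : tri d → ℂ) (e : tri d) : coeff (e2 e) (Gc d c) = c e := by
  classical
  rw [Gc, coeff_sum, Finset.sum_eq_single e]
  · rw [coeff_monomial, if_pos rfl]
  · intro e' _ hne
    rw [coeff_monomial, if_neg]
    intro h
    apply hne
    ext
    · rw [← e2_zero e', ← e2_zero e, h]
    · rw [← e2_one e', ← e2_one e, h]
  · intro h; exact absurd (Finset.mem_univ _) h

lemma wdeg_Gc {d : ℕ} (c : tri d → ℂ) : wdeg 1 (Gc d c) ≤ d := by
  classical
  rw [wdeg, Finset.sup_le_iff]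
  intro n hn
  rw [Gc] at hn
  have := MvPolynomial.support_sum hn
  rw [Finset.mem_biUnion] at this
  obtain ⟨e, _, he⟩ := this
  have h1 := support_monomial_subset he
  rw [Finset.mem_singleton] at h1
  rw [h1, e2_zero, e2_one]
  have := mem_tri.mp e.2
  omega

lemma Gc_coeff {d : ℕ} {G : R2} (hG : wdeg 1 G ≤ d) : Gc d (fun e => coeff (e2 e) G) = G := by
  classical
  ext n
  by_cases hn : n 0 + n 1 ≤ d
  · have h1 := coeff_Gc (fun e : tri d => coeff (e2 e) G) ⟨(n 0, n 1), mem_tri.mpr hn⟩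
    simp only [e2_eq] at h1
    exact h1
  · have h1 : ∀ {F : R2}, wdeg 1 F ≤ d → coeff n F = 0 := by
      intro F hF
      by_contra h2
      have h3 : n ∈ F.support := mem_support_iff.mpr h2
      have h4 : n 0 + 1 * n 1 ≤ wdeg 1 F :=
        Finset.le_sup (f := fun n : Fin 2 →₀ ℕ => n 0 + 1 * n 1) h3
      omega
    rw [h1 (wdeg_Gc _), h1 hG]

/-- the affine coordinates of a point -/
noncomputable def aff (p : Fin 3 → ℂ) : Fin 2 → ℂ := ![p 0 / p 2, p 1 / p 2]

lemma key {d : ℕ} (c : tri d → ℂ) {p : Fin 3 → ℂ} (hp : p 2 ≠ 0) (i j : ℕ) :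
    ∑ e : tri d, c e * RR d p i j 0 e =
      p 2 ^ (d - (i + j)) * coeff (e2 (i, j)) (trans (aff p) (Gc d c)) := by
  rw [Gc, map_sum, coeff_sum, Finset.mul_sum]
  apply Finset.sum_congr rfl
  intro e _
  rw [coeff_trans_monomial, e2_zero, e2_one, e2_zero, e2_one, RR]
  simp only
  have he := mem_tri.mp e.2
  rcases Nat.lt_or_ge e.1.1 i with h1 | h1
  · have : ∀ x : ℂ, gg x e.1.1 i = 0 := fun x => by
      rw [gg, Nat.choose_eq_zero_of_lt h1]; simp
    rw [this, this]; ring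
  rcases Nat.lt_or_ge e.1.2 j with h2 | h2
  · have : ∀ x : ℂ, gg x e.1.2 j = 0 := fun x => by
      rw [gg, Nat.choose_eq_zero_of_lt h2]; simp
    rw [this, this]; ring
  have h3 : gg (p 2) (d - e.1.1 - e.1.2) 0 = p 2 ^ (d - e.1.1 - e.1.2) := by
    rw [gg]; simp
  rw [h3]
  simp only [gg, aff, Matrix.cons_val_zero, Matrix.cons_val_one]
  have h4 : d - (i + j) = (e.1.1 - i) + (e.1.2 - j) + (d - e.1.1 - e.1.2) := by omega
  rw [h4, pow_add, pow_add, div_pow, div_pow]
  field_simp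

lemma sys_iff {d r : ℕ} {m : Fin r → ℕ} {p : Fin r → Fin 3 → ℂ} (hp : ∀ k, p k 2 ≠ 0)
    (c : tri d → ℂ) :
    form d c ∈ sys d r m p ↔ ∀ k, Gc d c ∈ ptIdeal (aff (p k)) ^ m k := by
  have h1 : form d c ∈ sys d r m p ↔ c ∈ vsys d r m p := Iff.rfl
  rw [h1, mem_vsys]
  constructor
  · intro h k
    rw [mem_ptIdeal_pow]
    intro n hn
    have h2 := h k (ex (n 0 + n 1) (n 0, n 1)) (by
      rw [Fin.sum_univ_three, Pool.Agent.helper89.Segre.ex_zero, Pool.Agent.helper89.Segre.ex_one, Pool.Agent.helper89.Segre.ex_two]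
      rw [Finsupp.degree_eq_sum, Fin.sum_univ_two] at hn
      simp only
      omega)
    rw [Pool.Agent.helper89.Segre.ex_zero, Pool.Agent.helper89.Segre.ex_one, Pool.Agent.helper89.Segre.ex_two] at h2
    simp only [Nat.add_sub_cancel_left, Nat.sub_self] at h2
    rw [key c (hp k), e2_eq] at h2
    exact (mul_eq_zero.mp h2).resolve_left (pow_ne_zero _ (hp k))
  · intro h k n hn
    rw [Fin.sum_univ_three] at hn
    apply all_conditions d (p k) (hp k) c (m k) _ _ _ _ (by omega)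
    intro i j hij
    rw [key c (hp k)]
    have h2 := h k
    rw [mem_ptIdeal_pow] at h2
    rw [h2 (e2 (i, j)) (by
      rw [Finsupp.degree_eq_sum, Fin.sum_univ_two, e2_zero, e2_one]; exact hij), mul_zero]

/-- dehomogenisation -/
lemma exists_lin {d r : ℕ} {m : Fin r → ℕ} {p : Fin r → Fin 3 → ℂ} (hp : ∀ k, p k 2 ≠ 0)
    {f : MvPolynomial (Fin 3) ℂ} (hf : f ∈ sys d r m p) (hf0 : f ≠ 0) :
    ∃ G ∈ Lin d m (fun k => aff (p k)), G ≠ 0 := by
  have h1 := form_surj d hf.1
  refine ⟨Gc d (fun e => coeff (ex d e) f), ⟨wdeg_Gc _, ?_⟩, ?_⟩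
  · rw [← sys_iff hp, h1]
    exact hf
  · intro h0
    apply hf0
    rw [← h1]
    have : (fun e : tri d => coeff (ex d e) f) = 0 := by
      funext e
      rw [← coeff_Gc (fun e : tri d => coeff (ex d e) f) e, h0]
      simp
    rw [this, map_zero]

/-- emptiness -/
lemma lin_empty {d r : ℕ} {m : Fin r → ℕ} {p : Fin r → Fin 3 → ℂ} (hp : ∀ k, p k 2 ≠ 0)
    (h : Module.finrank ℂ (sys d r m p) = 0) {G : R2} (hG : G ∈ Lin d m (fun k => aff (p k))) :
    G = 0 := by
  have h1 := Gc_coeff hG.1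
  have h2 : form d (fun e => coeff (e2 e) G) ∈ sys d r m p := by
    rw [sys_iff hp, h1]
    exact hG.2
  rw [finrank_sys] at h
  have h3 : vsys d r m p = ⊥ := Submodule.finrank_eq_zero.mp h
  have h4 : (fun e : tri d => coeff (e2 e) G) ∈ vsys d r m p := h2
  rw [h3, Submodule.mem_bot] at h4
  rw [← h1, h4]
  simp [Gc]

/-- homogenisation of polynomial conditions on the points -/
lemma exists_hat (r : ℕ) (q : PtRing r) :
    ∃ (N : ℕ) (Q : MvPolynomial (Fin r × Fin 3) ℂ), ∀ p : Fin r → Fin 3 → ℂ, (∀ k, p k 2 ≠ 0) →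
      eval (fun ij : Fin r × Fin 3 => p ij.1 ij.2) Q =
        (∏ k, p k 2) ^ N * evP (fun k => aff (p k)) q := by
  classical
  induction q using MvPolynomial.induction_on with
  | C a =>
    refine ⟨0, C a, fun p _ => ?_⟩
    simp [evP]
  | add f g hf hg =>
    obtain ⟨N, Q, hQ⟩ := hf
    obtain ⟨N', Q', hQ'⟩ := hg
    refine ⟨N + N', Q * (∏ k, X (k, 2)) ^ N' + Q' * (∏ k, X (k, 2)) ^ N, fun p hp => ?_⟩
    rw [map_add, map_mul, map_mul, hQ p hp, hQ' p hp, map_add, map_pow, map_pow, map_prod]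
    simp only [eval_X]
    ring
  | mul_X f ij hf =>
    obtain ⟨N, Q, hQ⟩ := hf
    refine ⟨N + 1, Q * X (ij.1, Fin.castSucc ij.2) * ∏ k ∈ Finset.univ.erase ij.1, X (k, 2),
      fun p hp => ?_⟩
    rw [map_mul, map_mul, hQ p hp, map_mul, map_prod]
    simp only [eval_X]
    have h1 : (∏ k, p k 2) = p ij.1 2 * ∏ k ∈ Finset.univ.erase ij.1, p k 2 :=
      (Finset.mul_prod_erase _ _ (Finset.mem_univ _)).symm
    have h2 : evP (fun k => aff (p k)) (X ij) = p ij.1 (Fin.castSucc ij.2) / p ij.1 2 := by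
      rw [evP, eval_X]
      obtain ⟨i, j⟩ := ij
      fin_cases j <;> simp [aff]
    rw [h2, pow_succ, h1]
    have := hp ij.1
    field_simp

lemma hat_ne {r : ℕ} {q : PtRing r} (hq : q ≠ 0) {N : ℕ} {Q : MvPolynomial (Fin r × Fin 3) ℂ}
    (h : ∀ p : Fin r → Fin 3 → ℂ, (∀ k, p k 2 ≠ 0) →
      eval (fun ij : Fin r × Fin 3 => p ij.1 ij.2) Q =
        (∏ k, p k 2) ^ N * evP (fun k => aff (p k)) q) : Q ≠ 0 := by
  rintro rfl
  apply hq
  apply evP_eq_zero
  intro p
  have h1 := h (fun k => ![p k 0, p k 1, 1]) (fun k => by simp)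
  have h2 : (fun k => aff (![p k 0, p k 1, 1])) = p := by
    funext k
    ext i
    fin_cases i <;> simp [aff]
  rw [h2] at h1
  simpa using h1.symm

end Pool.Agent.helper73.Nag
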