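import Pool.Agent.helper73.Nag.Xu
import Pool.Agent.helper73.Nag.Num
import Pool.Agent.helper73.Nag.Conv

/-! The main theorem. -/

set_option autoImplicit false

open MvPolynomial Pool.Agent.helper5.NBS Pool.Agent.helper89.Segre

namespace Pool.Agent.helper73.Nag

lemma smult_bound {r : ℕ} {p : Fin r → Fin 2 → ℂ} (hp : VG p)
    (hE : ∀ (d M : ℕ) (m : Fin r → ℕ), (∀ i, m i ≤ M) →
      (d + 2).choose 2 + 5 * (M + 1).choose 2 ≤ ∑ k, (m k + 1).choose 2 →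
      ∀ F ∈ Lin d m p, F = 0)
    (κ : ℝ) (hκ : 5 ≤ κ) (h : 5 * (r / κ) + 10 * √(r / κ) + 3 * √(r : ℝ) + 17 ≤ r)
    (hκr : κ ≤ (r : ℝ) ^ 2) {F : R2} (hF : F ≠ 0) :
    √((1 - κ / r ^ 2) / r) * smult p F ≤ wdeg 1 F := by
  have hR17 : (17 : ℝ) ≤ r := by
    have e1 : 0 ≤ √((r : ℝ) / κ) := Real.sqrt_nonneg _
    have e2 : 0 ≤ √(r : ℝ) := Real.sqrt_nonneg _
    have e3 : 0 ≤ (r : ℝ) / κ := by positivity
    linarith
  have hr0 : (0 : ℝ) < r := by linarith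
  have hA : 0 ≤ (1 - κ / (r : ℝ) ^ 2) / r := by
    apply div_nonneg _ hr0.le
    rw [sub_nonneg, div_le_one (by positivity)]
    exact hκr
  have hld : ∀ G : R2, (ldeg 1 1 0 G : ℕ) = wdeg 1 G := fun G => by rw [ldeg]; ring
  have hall := all_of_irreducible 1 1 0 p (√((1 - κ / r ^ 2) / r)) (by
    intro G hG hs
    rw [hld]
    have hd : 0 < wdeg 1 G := by
      rw [Nat.pos_iff_ne_zero]
      intro h0
      obtain ⟨c, rfl⟩ := eq_C_of_wdeg h0
      have hc : c ≠ 0 := by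
        rintro rfl
        exact hG.ne_zero (map_zero _)
      exact hG.not_isUnit ((isUnit_iff_ne_zero.mpr hc).map C)
    have h1 := numeric r (wdeg 1 G) (fun i => mult (p i) G) κ hκ h hd
      (fun j hj => xu hp hG j hj) (fun i j hij => swapIneq hp hG hij) (by
        intro M hM
        by_contra hcon
        push Not at hcon
        exact hG.ne_zero (hE (wdeg 1 G) M (fun i => mult (p i) G) hM hcon G
          (self_mem p hG.ne_zero)))
    have h2 : ((smult p G : ℕ) : ℝ) = ∑ i, ((mult (p i) G : ℕ) : ℝ) := by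
      rw [smult]
      push_cast
      rfl
    rw [← h2] at h1
    apply le_of_sq_le_sq _ (by positivity)
    rw [mul_pow, Real.sq_sqrt hA, div_mul_eq_mul_div, div_le_iff₀ hr0]
    linarith) F hF
  rw [hld] at hall
  exact hall

theorem affine_main {r : ℕ} {p : Fin r → Fin 2 → ℂ} (hp : VG p)
    (hE : ∀ (d M : ℕ) (m : Fin r → ℕ), (∀ i, m i ≤ M) →
      (d + 2).choose 2 + 5 * (M + 1).choose 2 ≤ ∑ k, (m k + 1).choose 2 →
      ∀ F ∈ Lin d m p, F = 0)
    (κ : ℝ) (hκ : 5 ≤ κ) (h : 5 * (r / κ) + 10 * √(r / κ) + 3 * √(r : ℝ) + 17 ≤ r)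
    {d : ℕ} {m : Fin r → ℕ} {F : R2} (hF : F ≠ 0) (hFm : F ∈ Lin d m p) :
    (1 - κ / r ^ 2) * (∑ i, (m i : ℝ)) ^ 2 ≤ r * (d : ℝ) ^ 2 := by
  have hR17 : (17 : ℝ) ≤ r := by
    have e1 : 0 ≤ √((r : ℝ) / κ) := Real.sqrt_nonneg _
    have e2 : 0 ≤ √(r : ℝ) := Real.sqrt_nonneg _
    have e3 : 0 ≤ (r : ℝ) / κ := by positivity
    linarith
  have hr0 : (0 : ℝ) < r := by linarith
  rcases le_or_gt κ ((r : ℝ) ^ 2) with hκr | hκr
  · have h1 := smult_bound hp hE κ hκ h hκr hF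
    have hA : 0 ≤ (1 - κ / (r : ℝ) ^ 2) := by
      rw [sub_nonneg, div_le_one (by positivity)]
      exact hκr
    have h2 : ∑ i, (m i : ℝ) ≤ smult p F := by
      rw [smult]
      push_cast
      apply Finset.sum_le_sum
      intro i _
      exact_mod_cast (mem_pow_iff_le_mult hF).mp (hFm.2 i)
    have h3 : (wdeg 1 F : ℝ) ≤ d := by exact_mod_cast hFm.1
    have h0 : 0 ≤ ∑ i, (m i : ℝ) := Finset.sum_nonneg (fun i _ => by positivity)
    have h4 : √((1 - κ / r ^ 2) / r) * ∑ i, (m i : ℝ) ≤ d :=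
      le_trans (le_trans (mul_le_mul_of_nonneg_left h2 (Real.sqrt_nonneg _)) h1) h3
    have h5 := pow_le_pow_left₀ (by positivity) h4 2
    rw [mul_pow, Real.sq_sqrt (div_nonneg hA hr0.le), div_mul_eq_mul_div, div_le_iff₀ hr0] at h5
    linarith
  · have hA : (1 - κ / (r : ℝ) ^ 2) ≤ 0 := by
      rw [sub_nonpos, one_le_div (by positivity)]
      exact hκr.le
    have h1 : (1 - κ / r ^ 2) * (∑ i, (m i : ℝ)) ^ 2 ≤ 0 :=
      mul_nonpos_of_nonpos_of_nonneg hA (sq_nonneg _)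
    have h2 : 0 ≤ (r : ℝ) * (d : ℝ) ^ 2 := by positivity
    linarith

/-- **Main theorem.** -/
theorem main (r : ℕ) : ∃ T : Set (MvPolynomial (Fin r × Fin 3) ℂ), T.Countable ∧
    (∀ Q ∈ T, Q ≠ 0) ∧ ∀ p : Fin r → Fin 3 → ℂ,
      (∀ Q ∈ T, eval (fun ij : Fin r × Fin 3 => p ij.1 ij.2) Q ≠ 0) →
      ∀ κ : ℝ, 5 ≤ κ → 5 * (r / κ) + 10 * √(r / κ) + 3 * √(r : ℝ) + 17 ≤ r →
      ∀ (d : ℕ) (m : Fin r → ℕ) (f : MvPolynomial (Fin 3) ℂ), f ≠ 0 → f ∈ sys d r m p →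
        (1 - κ / r ^ 2) * (∑ i, (m i : ℝ)) ^ 2 ≤ r * (d : ℝ) ^ 2 := by
  classical
  choose N hat hhat using exists_hat r
  -- emptiness
  have hEmp : ∀ x : ℕ × ℕ × (Fin r → ℕ), ∃ Q : MvPolynomial (Fin r × Fin 3) ℂ, Q ≠ 0 ∧
      ((∀ i, x.2.2 i ≤ x.2.1) → (x.1 + 2).choose 2 + 5 * (x.2.1 + 1).choose 2 ≤
        ∑ k, (x.2.2 k + 1).choose 2 → ∀ p : Fin r → Fin 3 → ℂ,
          eval (fun ij : Fin r × Fin 3 => p ij.1 ij.2) Q ≠ 0 →
          Module.finrank ℂ (sys x.1 r x.2.2 p) = 0) := by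
    rintro ⟨d, M, m⟩
    by_cases hc : (∀ i, m i ≤ M) ∧ (d + 2).choose 2 + 5 * (M + 1).choose 2 ≤
        ∑ k, (m k + 1).choose 2
    · obtain ⟨Q, hQ, h⟩ := awayFromZero d r M m hc.1 (Or.inr hc.2)
      refine ⟨Q, hQ, fun _ _ p hp => ?_⟩
      have h1 := h p hp
      simp only
      rw [h1]
      have h2 := hc.2
      omega
    · exact ⟨1, one_ne_zero, fun h1 h2 => absurd ⟨h1, h2⟩ hc⟩
  choose QE hQE0 hQE using hEmp
  let T1 : Set (MvPolynomial (Fin r × Fin 3) ℂ) := Set.range fun i : Fin r => X (i, 2)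
  let T2 : Set (MvPolynomial (Fin r × Fin 3) ℂ) :=
    Set.range fun x : {x : Fin r × Fin r // x.1 ≠ x.2} => hat (X (x.1.1, 0) - X (x.1.2, 0))
  let T3 : Set (MvPolynomial (Fin r × Fin 3) ℂ) :=
    Set.range fun x : ℕ × (Fin r → ℕ) => hat (qq r x.1 x.2)
  let T4 : Set (MvPolynomial (Fin r × Fin 3) ℂ) := Set.range QE
  refine ⟨T1 ∪ T2 ∪ T3 ∪ T4, ?_, ?_, ?_⟩
  · exact (((Set.countable_range _).union (Set.countable_range _)).union
      (Set.countable_range _)).union (Set.countable_range _)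
  · rintro Q (((⟨i, rfl⟩ | ⟨x, rfl⟩) | ⟨x, rfl⟩) | ⟨x, rfl⟩)
    · exact X_ne_zero _
    · apply hat_ne _ (hhat _)
      rw [sub_ne_zero]
      intro h
      have := X_injective h
      simp only [Prod.mk.injEq, and_true] at this
      exact x.2 this
    · exact hat_ne (qq_ne r x.1 x.2) (hhat _)
    · exact hQE0 x
  · intro p hp κ hκ h d m f hf0 hf
    have hp2 : ∀ k, p k 2 ≠ 0 := by
      intro k
      have := hp _ (Or.inl (Or.inl (Or.inl ⟨k, rfl⟩)))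
      simpa using this
    have hhat' : ∀ q : PtRing r, eval (fun ij : Fin r × Fin 3 => p ij.1 ij.2) (hat q) ≠ 0 →
        evP (fun k => aff (p k)) q ≠ 0 := by
      intro q hq
      rw [hhat q p hp2] at hq
      exact right_ne_zero_of_mul hq
    have hvg : VG (fun k => aff (p k)) := by
      constructor
      · intro i j hij
        by_contra hne
        have h1 := hhat' _ (hp _ (Or.inl (Or.inl (Or.inr ⟨⟨(i, j), hne⟩, rfl⟩))))
        apply h1
        rw [map_sub, evP, eval_X, eval_X]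
        simp only
        have h2 : aff (p i) 0 = aff (p j) 0 := congrFun hij 0
        rw [h2, sub_self]
      · intro d m
        exact hhat' _ (hp _ (Or.inl (Or.inr ⟨(d, m), rfl⟩)))
    obtain ⟨G, hG, hG0⟩ := exists_lin hp2 hf hf0
    apply affine_main hvg _ κ hκ h hG0 hG
    intro d' M m' hM hle F hF
    exact lin_empty hp2 (hQE (d', M, m') hM hle p (hp _ (Or.inr ⟨_, rfl⟩))) hF

end Pool.Agent.helper73.Nag
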