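import Pool.Agent.helper5.NBSBezout

/-! A Bézout inequality for plane curves with assigned multiplicities. -/

set_option autoImplicit false

open MvPolynomial Pool.Agent.helper5.NBS

namespace Pool.Agent.helper73.Nag

/-- the image of a multiplication map modulo `𝔪^k` -/
lemma image_mul {p : Fin 2 → ℂ} {P : R2} {n : ℕ} (hP : P ∈ ptIdeal p ^ n) (k : ℕ) :
    Module.finrank ℂ (LinearMap.range
      ((Ideal.Quotient.mkₐ ℂ (ptIdeal p ^ (k + n))).toLinearMap ∘ₗ LinearMap.mulLeft ℂ P)) ≤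
      Module.finrank ℂ (R2 ⧸ ptIdeal p ^ k) := by
  have hfink := finite_quot p k
  let ψ : R2 →ₗ[ℂ] (R2 ⧸ ptIdeal p ^ (k + n)) :=
    (Ideal.Quotient.mkₐ ℂ (ptIdeal p ^ (k + n))).toLinearMap ∘ₗ LinearMap.mulLeft ℂ P
  have hψ : ∀ G ∈ ptIdeal p ^ k, ψ G = 0 := by
    intro G hG
    show Ideal.Quotient.mk _ (P * G) = 0
    rw [Ideal.Quotient.eq_zero_iff_mem, pow_add, mul_comm P G]
    exact Ideal.mul_mem_mul hG hP
  have hle2 : (ptIdeal p ^ k).restrictScalars ℂ ≤ LinearMap.ker ψ := fun G hG =>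
    LinearMap.mem_ker.mpr (hψ G hG)
  let ψ' : (R2 ⧸ (ptIdeal p ^ k).restrictScalars ℂ) →ₗ[ℂ] (R2 ⧸ ptIdeal p ^ (k + n)) :=
    Submodule.liftQ _ ψ hle2
  have hfink' : Module.Finite ℂ (R2 ⧸ (ptIdeal p ^ k).restrictScalars ℂ) :=
    Module.Finite.equiv (Submodule.Quotient.restrictScalarsEquiv ℂ (ptIdeal p ^ k)).symm
  have hr : Module.finrank ℂ (LinearMap.range ψ') ≤ Module.finrank ℂ (R2 ⧸ ptIdeal p ^ k) := by
    rw [← (Submodule.Quotient.restrictScalarsEquiv ℂ (ptIdeal p ^ k)).finrank_eq]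
    exact LinearMap.finrank_range_le ψ'
  have hrange : LinearMap.range ψ' = LinearMap.range ψ := Submodule.range_liftQ _ _ _
  rw [hrange] at hr
  exact hr

/-- local intersection numbers are at least the product of the multiplicities -/
lemma local_bez {p : Fin 2 → ℂ} {F P : R2} {m n : ℕ} (hF : F ∈ ptIdeal p ^ m)
    (hP : P ∈ ptIdeal p ^ n) :
    Module.Finite ℂ (R2 ⧸ (Ideal.span {F, P} ⊔ ptIdeal p ^ (m + n))) ∧
    m * n ≤ Module.finrank ℂ (R2 ⧸ (Ideal.span {F, P} ⊔ ptIdeal p ^ (m + n))) := by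
  have hfin := finite_quot p (m + n)
  set I : Ideal R2 := Ideal.span {F, P} ⊔ ptIdeal p ^ (m + n) with hI
  have hle : ptIdeal p ^ (m + n) ≤ I := le_sup_right
  let q : (R2 ⧸ ptIdeal p ^ (m + n)) →ₗ[ℂ] (R2 ⧸ I) := (Ideal.Quotient.factorₐ ℂ hle).toLinearMap
  have hq : Function.Surjective q := by
    intro x
    obtain ⟨F, rfl⟩ := Ideal.Quotient.mk_surjective x
    exact ⟨Ideal.Quotient.mk _ F, by simp [q]⟩
  have hfinI : Module.Finite ℂ (R2 ⧸ I) := Module.Finite.of_surjective q hq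
  refine ⟨hfinI, ?_⟩
  let ψP : R2 →ₗ[ℂ] (R2 ⧸ ptIdeal p ^ (m + n)) :=
    (Ideal.Quotient.mkₐ ℂ (ptIdeal p ^ (m + n))).toLinearMap ∘ₗ LinearMap.mulLeft ℂ P
  let ψF : R2 →ₗ[ℂ] (R2 ⧸ ptIdeal p ^ (m + n)) :=
    (Ideal.Quotient.mkₐ ℂ (ptIdeal p ^ (m + n))).toLinearMap ∘ₗ LinearMap.mulLeft ℂ F
  have hrP : Module.finrank ℂ (LinearMap.range ψP) ≤ Module.finrank ℂ (R2 ⧸ ptIdeal p ^ m) :=
    image_mul hP m
  have hrF : Module.finrank ℂ (LinearMap.range ψF) ≤ Module.finrank ℂ (R2 ⧸ ptIdeal p ^ n) := by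
    have h := image_mul hF n
    rw [Nat.add_comm n m] at h
    exact h
  have hker : LinearMap.ker q ≤ LinearMap.range ψF ⊔ LinearMap.range ψP := by
    intro x hx
    obtain ⟨G, rfl⟩ := Ideal.Quotient.mk_surjective x
    rw [LinearMap.mem_ker] at hx
    have hx' : G ∈ I := by
      rw [← Ideal.Quotient.eq_zero_iff_mem]
      simpa [q] using hx
    rw [hI, Submodule.mem_sup] at hx'
    obtain ⟨A, hA, B, hB, rfl⟩ := hx'
    rw [Ideal.mem_span_pair] at hA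
    obtain ⟨U, W, rfl⟩ := hA
    rw [Submodule.mem_sup]
    refine ⟨ψF U, ⟨U, rfl⟩, ψP W, ⟨W, rfl⟩, ?_⟩
    show Ideal.Quotient.mk _ (F * U) + Ideal.Quotient.mk _ (P * W) = _
    rw [← map_add, map_add _ _ B, Ideal.Quotient.eq_zero_iff_mem.mpr hB, add_zero, mul_comm F,
      mul_comm P]
  have h1 := LinearMap.finrank_range_add_finrank_ker q
  have h2 : Module.finrank ℂ (LinearMap.range q) = Module.finrank ℂ (R2 ⧸ I) := by
    rw [LinearMap.range_eq_top.mpr hq, finrank_top]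
  have h3 := Submodule.finrank_mono hker
  have h3' := Submodule.finrank_add_le_finrank_add_finrank (LinearMap.range ψF) (LinearMap.range ψP)
  have h4 := finrank_quot p (m + n)
  have h5 := finrank_quot p m
  have h5' := finrank_quot p n
  rw [h2] at h1
  have h6 : (Module.finrank ℂ (R2 ⧸ ptIdeal p ^ (m + n)) : ℤ) ≤
      Module.finrank ℂ (R2 ⧸ I) + Module.finrank ℂ (R2 ⧸ ptIdeal p ^ m) +
        Module.finrank ℂ (R2 ⧸ ptIdeal p ^ n) := by
    have : Module.finrank ℂ (R2 ⧸ ptIdeal p ^ (m + n)) ≤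
      Module.finrank ℂ (R2 ⧸ I) + Module.finrank ℂ (R2 ⧸ ptIdeal p ^ m) +
        Module.finrank ℂ (R2 ⧸ ptIdeal p ^ n) := by omega
    exact_mod_cast this
  push_cast at h4 h5 h5'
  have h7 : ((m : ℤ) * n) ≤ Module.finrank ℂ (R2 ⧸ I) := by nlinarith
  exact_mod_cast h7

lemma ydeg_le_wdeg (F : R2) : ydeg F ≤ wdeg 1 F := by
  rw [ydeg, degreeOf_eq_sup, wdeg]
  apply Finset.sup_mono_fun
  intro n _
  omega

theorem bez {F P : R2} (hF : F ≠ 0) (hP : P ≠ 0) (hcop : IsRelPrime F P)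
    {ι : Type} [Fintype ι] (p : ι → Fin 2 → ℂ) (hp : Function.Injective p) (m n : ι → ℕ)
    (hFm : ∀ i, F ∈ ptIdeal (p i) ^ m i) (hPm : ∀ i, P ∈ ptIdeal (p i) ^ n i) :
    (∑ i, m i * n i) ≤ wdeg 1 F * wdeg 1 P := by
  classical
  set I : ι → Ideal R2 := fun i => Ideal.span {F, P} ⊔ ptIdeal (p i) ^ (m i + n i) with hI
  have hfinI : ∀ i, Module.Finite ℂ (R2 ⧸ I i) := fun i => (local_bez (hFm i) (hPm i)).1
  have hmI : ∀ i, m i * n i ≤ Module.finrank ℂ (R2 ⧸ I i) := fun i =>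
    (local_bez (hFm i) (hPm i)).2
  have hcopI : Pairwise (Function.onFun IsCoprime I) := by
    intro i j hij
    have h1 : IsCoprime (ptIdeal (p i) ^ (m i + n i)) (ptIdeal (p j) ^ (m j + n j)) :=
      (ptIdeal_coprime (fun h => hij (hp h))).pow
    show IsCoprime (I i) (I j)
    rw [Ideal.isCoprime_iff_sup_eq] at h1 ⊢
    rw [eq_top_iff, ← h1]
    exact sup_le_sup le_sup_right le_sup_right
  let Ψ : R2 →ₗ[ℂ] (∀ i, R2 ⧸ I i) :=
    LinearMap.pi (fun i => (Ideal.Quotient.mkₐ ℂ (I i)).toLinearMap)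
  have hΨ : Function.Surjective Ψ := by
    intro x
    obtain ⟨r, hr⟩ := Ideal.pi_quotient_surjective hcopI x
    exact ⟨r, funext hr⟩
  have hfr : ∑ i, m i * n i ≤ Module.finrank ℂ (∀ i, R2 ⧸ I i) := by
    rw [Module.finrank_pi_fintype]
    exact Finset.sum_le_sum (fun i _ => hmI i)
  -- a spanning family
  let bas := Module.finBasis ℂ (∀ i, R2 ⧸ I i)
  choose G hG using fun j => hΨ (bas j)
  set K0 := Finset.univ.sup (fun j => ydeg (G j)) with hK0
  set M0 := Finset.univ.sup (fun j => wdeg 1 (G j)) with hM0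
  have hya : ydeg F ≤ wdeg 1 F := ydeg_le_wdeg F
  have hya' : ydeg P ≤ wdeg 1 P := ydeg_le_wdeg P
  set a := ydeg F with ha
  set b := wdeg 1 F with hb
  set a' := ydeg P with ha'
  set b' := wdeg 1 P with hb'
  set K := K0 + a + a' with hK
  set L := 1 * K + M0 + b + b' with hL
  have hKL : 1 * K ≤ L := by omega
  have hKL1 : 1 * (K - a) ≤ L - b := by omega
  have hKL2 : 1 * (K - a') ≤ L - b' := by omega
  have hKL3 : 1 * (K - a - a') ≤ L - b - b' := by omega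
  set S1 := (V 1 (K - a) (L - b)).map (LinearMap.mulLeft ℂ F) with hS1
  set S2 := (V 1 (K - a') (L - b')).map (LinearMap.mulLeft ℂ P) with hS2
  set S3 := (V 1 (K - a - a') (L - b - b')).map (LinearMap.mulLeft ℂ (F * P)) with hS3
  have f0 := finite_V 1 K L hKL
  have f1 : Module.Finite ℂ S1 := finite_map 1 _ _ hKL1 F
  have f2 : Module.Finite ℂ S2 := finite_map 1 _ _ hKL2 P
  have f3 : Module.Finite ℂ S3 := finite_map 1 _ _ hKL3 (F * P)
  have hle1 : S1 ≤ V 1 K L := by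
    rintro _ ⟨U, hU, rfl⟩
    rw [SetLike.mem_coe, mem_V] at hU
    rw [LinearMap.mulLeft_apply]
    by_cases hU0 : U = 0
    · rw [hU0, mul_zero]; exact zero_mem _
    · rw [mem_V, ydeg_mul hF hU0, wdeg_mul 1 hF hU0]
      omega
  have hle2 : S2 ≤ V 1 K L := by
    rintro _ ⟨U, hU, rfl⟩
    rw [SetLike.mem_coe, mem_V] at hU
    rw [LinearMap.mulLeft_apply]
    by_cases hU0 : U = 0
    · rw [hU0, mul_zero]; exact zero_mem _
    · rw [mem_V, ydeg_mul hP hU0, wdeg_mul 1 hP hU0]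
      omega
  have hle3 : S1 ⊓ S2 ≤ S3 := by
    rintro x ⟨⟨U, hU, rfl⟩, ⟨W, hW, hUW⟩⟩
    rw [SetLike.mem_coe, mem_V] at hU
    rw [LinearMap.mulLeft_apply, LinearMap.mulLeft_apply] at hUW
    by_cases hU0 : U = 0
    · rw [hU0, map_zero]; exact zero_mem _
    have hdvd : P ∣ F * U := ⟨W, hUW.symm⟩
    have hPU : P ∣ U := hcop.symm.dvd_of_dvd_mul_left hdvd
    obtain ⟨Q, rfl⟩ := hPU
    have hQ0 : Q ≠ 0 := by
      rintro rfl
      exact hU0 (mul_zero _)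
    refine ⟨Q, ?_, ?_⟩
    · rw [SetLike.mem_coe, mem_V]
      rw [ydeg_mul hP hQ0, wdeg_mul 1 hP hQ0] at hU
      omega
    · simp only [LinearMap.mulLeft_apply]
      ring
  have hsup : S1 ⊔ S2 ≤ V 1 K L := sup_le hle1 hle2
  have hkerS : S1 ⊔ S2 ≤ LinearMap.ker Ψ := by
    apply sup_le
    · rintro _ ⟨U, hU, rfl⟩
      rw [LinearMap.mem_ker]
      funext i
      show Ideal.Quotient.mk (I i) (F * U) = 0
      rw [Ideal.Quotient.eq_zero_iff_mem]
      exact Ideal.mul_mem_right _ _ (Ideal.mem_sup_left (Ideal.subset_span (by simp)))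
    · rintro _ ⟨U, hU, rfl⟩
      rw [LinearMap.mem_ker]
      funext i
      show Ideal.Quotient.mk (I i) (P * U) = 0
      rw [Ideal.Quotient.eq_zero_iff_mem]
      exact Ideal.mul_mem_right _ _ (Ideal.mem_sup_left (Ideal.subset_span (by simp)))
  -- restriction of `Ψ`
  let Ψ0 : V 1 K L →ₗ[ℂ] (∀ i, R2 ⧸ I i) := Ψ.domRestrict (V 1 K L)
  have hGV : ∀ j, G j ∈ V 1 K L := by
    intro j
    rw [mem_V]
    have h1 : ydeg (G j) ≤ K0 := Finset.le_sup (f := fun j => ydeg (G j)) (Finset.mem_univ j)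
    have h2 : wdeg 1 (G j) ≤ M0 := Finset.le_sup (f := fun j => wdeg 1 (G j)) (Finset.mem_univ j)
    omega
  have hΨ0 : LinearMap.range Ψ0 = ⊤ := by
    rw [eq_top_iff, ← bas.span_eq, Submodule.span_le]
    rintro _ ⟨j, rfl⟩
    exact ⟨⟨G j, hGV j⟩, hG j⟩
  have h1 := LinearMap.finrank_range_add_finrank_ker Ψ0
  rw [hΨ0, finrank_top, finrank_V 1 K L hKL] at h1
  have h2 : Module.finrank ℂ ↥(S1 ⊔ S2) ≤ Module.finrank ℂ (LinearMap.ker Ψ0) := by
    rw [← (Submodule.comapSubtypeEquivOfLe hsup).finrank_eq]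
    apply Submodule.finrank_mono
    intro x hx
    rw [Submodule.mem_comap] at hx
    exact LinearMap.mem_ker.mp (hkerS hx)
  have h3 := Submodule.finrank_sup_add_finrank_inf_eq S1 S2
  have h4 : Module.finrank ℂ ↥(S1 ⊓ S2) ≤ cnt 1 (K - a - a') (L - b - b') := by
    rw [← finrank_map hKL3 (mul_ne_zero hF hP)]
    exact Submodule.finrank_mono hle3
  have h5 : Module.finrank ℂ S1 = cnt 1 (K - a) (L - b) := finrank_map hKL1 hF
  have h6 : Module.finrank ℂ S2 = cnt 1 (K - a') (L - b') := finrank_map hKL2 hP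
  have h7 : (∑ i, m i * n i) + cnt 1 (K - a) (L - b) + cnt 1 (K - a') (L - b') ≤
      cnt 1 K L + cnt 1 (K - a - a') (L - b - b') := by omega
  have c0 := two_cnt 1 K L hKL
  have c1 := two_cnt 1 (K - a) (L - b) hKL1
  have c2 := two_cnt 1 (K - a') (L - b') hKL2
  have c3 := two_cnt 1 (K - a - a') (L - b - b') hKL3
  have k1 : ((K - a : ℕ) : ℤ) = K - a := by rw [Nat.cast_sub (by omega)]
  have k2 : ((K - a' : ℕ) : ℤ) = K - a' := by rw [Nat.cast_sub (by omega)]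
  have k3 : ((K - a - a' : ℕ) : ℤ) = K - a - a' := by
    rw [Nat.cast_sub (by omega), Nat.cast_sub (by omega)]
  have l1 : ((L - b : ℕ) : ℤ) = L - b := by rw [Nat.cast_sub (by omega)]
  have l2 : ((L - b' : ℕ) : ℤ) = L - b' := by rw [Nat.cast_sub (by omega)]
  have l3 : ((L - b - b' : ℕ) : ℤ) = L - b - b' := by
    rw [Nat.cast_sub (by omega), Nat.cast_sub (by omega)]
  rw [k1, l1] at c1
  rw [k2, l2] at c2
  rw [k3, l3] at c3
  have h8 : ((∑ i, m i * n i : ℕ) : ℤ) + cnt 1 (K - a) (L - b) + cnt 1 (K - a') (L - b') ≤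
      cnt 1 K L + cnt 1 (K - a - a') (L - b - b') := by exact_mod_cast h7
  have h9 := arith_aux _ _ _ _ _ _ _ _ _ _ _ _ c0 c1 c2 c3 h8
  rw [Nat.cast_one, one_mul] at h9
  have h10 : ((∑ i, m i * n i : ℕ) : ℤ) ≤ b * b' := by
    have e1 : (0 : ℤ) ≤ b - a := by omega
    have e2 : (0 : ℤ) ≤ b' - a' := by omega
    have e3 : (0 : ℤ) ≤ (b - a) * (b' - a') := mul_nonneg e1 e2
    have e4 : ((b : ℤ) - a) * (b' - a') = b * b' - (a * b' + b * a') + a * a' := by ring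
    linarith
  exact_mod_cast h10

end Pool.Agent.helper73.Nag
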