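import Pool.Agent.helper5.NBSGeneral

/-! Linear systems at very general points: families, derivatives in the points, permutations. -/

set_option autoImplicit false

open MvPolynomial Pool.Agent.helper5.NBS

namespace Pool.Agent.helper73.Nag

/-- exponents of total degree at most `d` -/
noncomputable def Dd (d : ℕ) : Finset (Fin 2 →₀ ℕ) :=
  (Finset.range (d + 1)).biUnion fun k => (Finset.range (d + 1)).image fun l =>
    (Finsupp.single 0 k + Finsupp.single 1 l)

/-- polynomials of degree at most `d` with multiplicity at least `m i` at `p i` -/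
def Lin (d : ℕ) {r : ℕ} (m : Fin r → ℕ) (p : Fin r → Fin 2 → ℂ) : Set R2 :=
  {F | wdeg 1 F ≤ d ∧ ∀ i, F ∈ ptIdeal (p i) ^ m i}

/-- the exponents used in degree `d` -/
noncomputable def Ex (d : ℕ) : Finset (Fin 2 →₀ ℕ) := (Dd d).filter fun n => n 0 + 1 * n 1 ≤ d

lemma mem_Ex {d : ℕ} {n : Fin 2 →₀ ℕ} : n ∈ Ex d ↔ n 0 + 1 * n 1 ≤ d := by
  classical
  rw [Ex, Finset.mem_filter, and_iff_right_iff_imp]
  intro h
  rw [Dd, Finset.mem_biUnion]
  refine ⟨n 0, by rw [Finset.mem_range]; omega, ?_⟩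
  rw [Finset.mem_image]
  refine ⟨n 1, by rw [Finset.mem_range]; omega, ?_⟩
  ext i
  fin_cases i <;> simp

lemma wdeg_le_iff {d : ℕ} {F : R2} : wdeg 1 F ≤ d ↔ F.support ⊆ Ex d := by
  rw [wdeg, Finset.sup_le_iff]
  constructor
  · intro h n hn
    exact mem_Ex.mpr (h n hn)
  · intro h n hn
    exact mem_Ex.mp (h hn)

lemma wdeg_polyOf {d : ℕ} (c : Ex d → ℂ) : wdeg 1 (polyOf (Ex d) c) ≤ d :=
  wdeg_le_iff.mpr (support_polyOf _ _)

/-- the total ring -/
abbrev SS (r : ℕ) := MvPolynomial (Fin 2 ⊕ (Fin r × Fin 2)) ℂ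

/-- ideal of the `i`-th diagonal -/
noncomputable def Dl {r : ℕ} (i : Fin r) : Ideal (SS r) :=
  Ideal.span (Set.range fun k : Fin 2 => (X (Sum.inl k) - X (Sum.inr (i, k)) : SS r))

/-- evaluation at `p` -/
noncomputable def evS {r : ℕ} (p : Fin r → Fin 2 → ℂ) : SS r →ₐ[ℂ] R2 :=
  aeval (Sum.elim X (fun ij => C (p ij.1 ij.2)))

lemma evS_inl {r : ℕ} (p : Fin r → Fin 2 → ℂ) (k : Fin 2) :
    evS p (X (Sum.inl k)) = X k := by simp [evS]

lemma evS_inr {r : ℕ} (p : Fin r → Fin 2 → ℂ) (ij : Fin r × Fin 2) :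
    evS p (X (Sum.inr ij)) = C (p ij.1 ij.2) := by simp [evS]

lemma evS_mem {r : ℕ} (p : Fin r → Fin 2 → ℂ) (i : Fin r) {m : ℕ} {Φ : SS r}
    (h : Φ ∈ Dl i ^ m) : evS p Φ ∈ ptIdeal (p i) ^ m := by
  have h1 : Ideal.map (evS p) (Dl i) ≤ ptIdeal (p i) := by
    rw [Dl, Ideal.map_span, Ideal.span_le]
    rintro _ ⟨_, ⟨k, rfl⟩, rfl⟩
    rw [map_sub, evS_inl, evS_inr]
    exact Ideal.subset_span ⟨k, rfl⟩
  have h2 := Ideal.mem_map_of_mem (evS p) h
  rw [Ideal.map_pow] at h2
  exact Ideal.pow_right_mono h1 m h2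

/-- a derivation which preserves the generators modulo the ideal -/
lemma der_pow {R : Type} [CommRing R] [Algebra ℂ R] (I : Ideal R) (D : Derivation ℂ R R)
    (m : ℕ) {x : R} (hx : x ∈ I ^ m) : D x ∈ I ^ (m - 1) := by
  induction m generalizing x with
  | zero => simp
  | succ n ih =>
    rw [pow_succ] at hx
    refine Submodule.mul_induction_on hx ?_ ?_
    · intro a ha b hb
      rw [Derivation.leibniz, smul_eq_mul, smul_eq_mul]
      apply Ideal.add_mem
      · exact Ideal.mul_mem_right _ _ ha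
      · rw [Nat.add_sub_cancel]
        rcases Nat.eq_zero_or_pos n with rfl | hn
        · simp
        · obtain ⟨k, rfl⟩ : ∃ k, n = k + 1 := ⟨n - 1, by omega⟩
          have h1 := ih ha
          rw [Nat.add_sub_cancel] at h1
          rw [pow_succ, mul_comm b]
          exact Ideal.mul_mem_mul h1 hb
    · intro a b ha hb
      rw [map_add]
      exact Ideal.add_mem _ ha hb

lemma der_pow' {R : Type} [CommRing R] [Algebra ℂ R] (I : Ideal R) (D : Derivation ℂ R R)
    (hD : ∀ x ∈ I, D x ∈ I) (m : ℕ) {x : R} (hx : x ∈ I ^ m) : D x ∈ I ^ m := by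
  induction m generalizing x with
  | zero => simp
  | succ n ih =>
    rw [pow_succ] at hx
    refine Submodule.mul_induction_on hx ?_ ?_
    · intro a ha b hb
      rw [Derivation.leibniz, smul_eq_mul, smul_eq_mul, pow_succ]
      apply Ideal.add_mem
      · exact Ideal.mul_mem_mul ha (hD b hb)
      · rw [mul_comm b]
        exact Ideal.mul_mem_mul (ih ha) hb
    · intro a b ha hb
      rw [map_add]
      exact Ideal.add_mem _ ha hb

lemma der_span {R : Type} [CommRing R] [Algebra ℂ R] (s : Set R) (D : Derivation ℂ R R)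
    (hD : ∀ x ∈ s, D x = 0) : ∀ x ∈ Ideal.span s, D x ∈ Ideal.span s := by
  intro x hx
  refine Submodule.span_induction ?_ ?_ ?_ ?_ hx
  · intro x hx
    rw [hD x hx]
    exact Ideal.zero_mem _
  · rw [map_zero]
    exact Ideal.zero_mem _
  · intro x y _ _ hx hy
    rw [map_add]
    exact Ideal.add_mem _ hx hy
  · intro a x hx hDx
    rw [smul_eq_mul, Derivation.leibniz, smul_eq_mul, smul_eq_mul]
    exact Ideal.add_mem _ (Ideal.mul_mem_left _ _ hDx) (Ideal.mul_mem_right _ _ hx)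

/-- the derivative in the `k`-th coordinate of the `j`-th point -/
noncomputable def Dp {r : ℕ} (j : Fin r) (k : Fin 2) : Derivation ℂ (SS r) (SS r) :=
  pderiv (Sum.inr (j, k))

/-- the derivative in the `k`-th coordinate -/
noncomputable def Dx {r : ℕ} (k : Fin 2) : Derivation ℂ (SS r) (SS r) :=
  pderiv (Sum.inl k)

lemma Dp_same {r : ℕ} (j : Fin r) (k : Fin 2) {m : ℕ} {Φ : SS r} (h : Φ ∈ Dl j ^ m) :
    Dp j k Φ ∈ Dl j ^ (m - 1) := der_pow _ _ m h

lemma Dp_other {r : ℕ} {j i : Fin r} (hij : i ≠ j) (k : Fin 2) {m : ℕ} {Φ : SS r}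
    (h : Φ ∈ Dl i ^ m) : Dp j k Φ ∈ Dl i ^ m := by
  apply der_pow' _ _ _ m h
  apply der_span
  rintro _ ⟨l, rfl⟩
  rw [map_sub, Dp, pderiv_X_of_ne (by simp), pderiv_X_of_ne (by simp [hij]), sub_zero]

lemma Dp_add_Dx {r : ℕ} (j : Fin r) (k : Fin 2) {m : ℕ} {Φ : SS r} (h : Φ ∈ Dl j ^ m) :
    Dp j k Φ + Dx k Φ ∈ Dl j ^ m := by
  have h1 : (Dp j k + Dx k : Derivation ℂ (SS r) (SS r)) Φ ∈ Dl j ^ m := by
    apply der_pow' _ _ _ m h
    apply der_span
    rintro _ ⟨l, rfl⟩
    rw [map_sub, Derivation.add_apply, Derivation.add_apply, Dp, Dx,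
      pderiv_X_of_ne (by simp : (Sum.inl l : Fin 2 ⊕ (Fin r × Fin 2)) ≠ Sum.inr (j, k)),
      pderiv_X_of_ne (by simp : (Sum.inr (j, l) : Fin 2 ⊕ (Fin r × Fin 2)) ≠ Sum.inl k)]
    by_cases hlk : l = k
    · subst hlk
      simp
    · rw [pderiv_X_of_ne (by simpa using hlk), pderiv_X_of_ne (by simpa using hlk)]
      simp
  exact h1

lemma evS_Dx {r : ℕ} (p : Fin r → Fin 2 → ℂ) (k : Fin 2) (Φ : SS r) :
    evS p (Dx k Φ) = pderiv k (evS p Φ) := by
  induction Φ using MvPolynomial.induction_on with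
  | C a => simp [Dx, evS]
  | add f g hf hg => rw [map_add, map_add, map_add, map_add, hf, hg]
  | mul_X f i hf =>
    rw [Derivation.leibniz, map_add, smul_eq_mul, smul_eq_mul, map_mul, map_mul, map_mul,
      Derivation.leibniz, smul_eq_mul, smul_eq_mul, hf]
    congr 2
    rcases i with l | ij
    · rw [evS_inl, Dx]
      by_cases hlk : l = k
      · subst hlk
        simp
      · rw [pderiv_X_of_ne (by simpa using hlk), pderiv_X_of_ne hlk, map_zero]
    · rw [evS_inr, Dx, pderiv_X_of_ne (by simp), map_zero, pderiv_C]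

/-- the family attached to a vector of coefficients -/
noncomputable def Fam {r : ℕ} {d : ℕ} (v : Ex d → PtRing r) : SS r :=
  ∑ k, rename Sum.inl (monomial k.1 (1 : ℂ)) * rename Sum.inr (v k)

lemma evS_rename_inl {r : ℕ} (p : Fin r → Fin 2 → ℂ) (F : R2) :
    evS p (rename Sum.inl F) = F := by
  rw [evS, aeval_rename]
  have : (Sum.elim X (fun ij : Fin r × Fin 2 => C (p ij.1 ij.2)) ∘ Sum.inl :
    Fin 2 → R2) = X := by ext1 k; simp
  rw [this, aeval_X_left, AlgHom.id_apply]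

lemma evS_rename_inr {r : ℕ} (p : Fin r → Fin 2 → ℂ) (F : PtRing r) :
    evS p (rename Sum.inr F) = C (evP p F) := by
  rw [evS, aeval_rename]
  have h : ((aeval (Sum.elim X (fun ij : Fin r × Fin 2 => C (p ij.1 ij.2)) ∘ Sum.inr :
      Fin r × Fin 2 → R2) : PtRing r →ₐ[ℂ] R2) : PtRing r →+* R2) = (C : ℂ →+* R2).comp (evP p) := by
    apply MvPolynomial.ringHom_ext
    · intro c
      simp [evP]
    · intro ij
      simp [evP]
  exact congrArg (fun f : PtRing r →+* R2 => f F) h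

lemma evS_Fam {r : ℕ} {d : ℕ} (p : Fin r → Fin 2 → ℂ) (v : Ex d → PtRing r) :
    evS p (Fam v) = polyOf (Ex d) (fun k => evP p (v k)) := by
  rw [Fam, map_sum, polyOf]
  apply Finset.sum_congr rfl
  intro k _
  rw [map_mul, evS_rename_inl, evS_rename_inr, mul_comm, C_mul_monomial, mul_one]

lemma Dp_Fam {r : ℕ} {d : ℕ} (j : Fin r) (l : Fin 2) (v : Ex d → PtRing r) :
    Dp j l (Fam v) = Fam (fun k => pderiv (j, l) (v k)) := by
  rw [Fam, Fam, map_sum]
  apply Finset.sum_congr rfl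
  intro k _
  rw [Derivation.leibniz, smul_eq_mul, smul_eq_mul]
  have h1 : Dp j l (rename Sum.inl (monomial k.1 (1 : ℂ))) = 0 := by
    rw [Dp]
    apply pderiv_eq_zero_of_notMem_vars
    intro h
    have := vars_rename (Sum.inl : Fin 2 → Fin 2 ⊕ (Fin r × Fin 2)) (monomial k.1 (1 : ℂ)) h
    simp at this
  have h2 : Dp j l (rename Sum.inr (v k)) = rename Sum.inr (pderiv (j, l) (v k)) := by
    rw [Dp]
    exact pderiv_rename Sum.inr_injective (j, l) (v k)
  rw [h1, h2, mul_zero, add_zero]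

/-- translation by the generic point -/
noncomputable def TT {r : ℕ} (i : Fin r) :
    MvPolynomial (Fin 2) (PtRing r) ≃ₐ[PtRing r] MvPolynomial (Fin 2) (PtRing r) :=
  AlgEquiv.ofAlgHom (aeval fun j => X j + C (X (i, j))) (aeval fun j => X j - C (X (i, j)))
    (by ext j; simp) (by ext j; simp)

lemma TT_monomial {r : ℕ} (i : Fin r) (k : Fin 2 →₀ ℕ) :
    TT i (monomial k 1) = transG i (monomial k (1 : ℂ)) := by
  have h : ((TT i : MvPolynomial (Fin 2) (PtRing r) →+* MvPolynomial (Fin 2) (PtRing r))).comp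
      (MvPolynomial.map (C : ℂ →+* PtRing r)) = transG i := by
    apply MvPolynomial.ringHom_ext
    · intro c
      simp [TT, transG]
    · intro j
      simp [TT, transG]
  have h1 := congrArg (fun f : R2 →+* MvPolynomial (Fin 2) (PtRing r) => f (monomial k (1 : ℂ))) h
  simpa using h1

lemma Fam_mem {r : ℕ} {d : ℕ} (m : Fin r → ℕ) (v : Ex d → PtRing r)
    (h : (condMat (Ex d) m).mulVec v = 0) (i : Fin r) : Fam v ∈ Dl i ^ m i := by
  set e := sumAlgEquiv ℂ (Fin 2) (Fin r × Fin 2) with he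
  set Ψ : MvPolynomial (Fin 2) (PtRing r) := ∑ k : Ex d, monomial k.1 (v k) with hΨ
  have h1 : e.symm Ψ = Fam v := by
    rw [AlgEquiv.symm_apply_eq, hΨ, Fam, map_sum]
    apply Finset.sum_congr rfl
    intro k _
    rw [map_mul]
    have e1 : e (rename Sum.inl (monomial k.1 (1 : ℂ))) = monomial k.1 1 := by
      have : (e : SS r →ₐ[ℂ] _).comp (rename Sum.inl) =
        (MvPolynomial.mapAlgHom (Algebra.ofId ℂ (PtRing r)) : R2 →ₐ[ℂ] _) := by
        ext j
        simp [he]
      have h2 := congrArg (fun f : R2 →ₐ[ℂ] MvPolynomial (Fin 2) (PtRing r) =>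
        f (monomial k.1 (1 : ℂ))) this
      simpa using h2
    have e2 : e (rename Sum.inr (v k)) = C (v k) := by
      have : (e : SS r →ₐ[ℂ] _).comp (rename Sum.inr) =
        (Algebra.ofId (PtRing r) (MvPolynomial (Fin 2) (PtRing r))).restrictScalars ℂ := by
        ext j
        simp [he, Algebra.ofId_apply, MvPolynomial.algebraMap_eq]
      have h2 := congrArg (fun f : PtRing r →ₐ[ℂ] MvPolynomial (Fin 2) (PtRing r) => f (v k)) this
      simpa [Algebra.ofId_apply, MvPolynomial.algebraMap_eq] using h2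
    rw [e1, e2, mul_comm, C_mul_monomial, mul_one]
  have h2 : TT i Ψ ∈ (idealOfVars (Fin 2) (PtRing r)) ^ m i := by
    rw [mem_pow_idealOfVars_iff']
    intro n hn
    have h3 := congrFun h ⟨i, ⟨n, hn⟩⟩
    rw [Matrix.mulVec, dotProduct] at h3
    rw [hΨ, map_sum, coeff_sum]
    rw [Pi.zero_apply] at h3
    rw [← h3]
    apply Finset.sum_congr rfl
    intro k _
    have : (monomial k.1 (v k) : MvPolynomial (Fin 2) (PtRing r)) = C (v k) * monomial k.1 1 := by
      rw [C_mul_monomial, mul_one]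
    rw [this, map_mul, ← MvPolynomial.algebraMap_eq, AlgEquiv.commutes, MvPolynomial.algebraMap_eq,
      coeff_C_mul, TT_monomial, condMat, mul_comm]
  let f : MvPolynomial (Fin 2) (PtRing r) →+* SS r :=
    (e.symm : MvPolynomial (Fin 2) (PtRing r) →+* SS r).comp
      ((TT i).symm : MvPolynomial (Fin 2) (PtRing r) →+* MvPolynomial (Fin 2) (PtRing r))
  have h4 : f (TT i Ψ) = Fam v := by
    rw [← h1]
    simp [f]
  rw [← h4]
  have h5 : Ideal.map f (idealOfVars (Fin 2) (PtRing r)) ≤ Dl i := by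
    rw [idealOfVars, Ideal.map_span, Ideal.span_le]
    rintro _ ⟨_, ⟨k, rfl⟩, rfl⟩
    have : f (X k) = X (Sum.inl k) - X (Sum.inr (i, k)) := by
      show e.symm ((TT i).symm (X k)) = _
      have h6 : (TT i).symm (X k) = X k - C (X (i, k)) := by simp [TT]
      rw [h6, map_sub, he]
      simp
    rw [this]
    exact Ideal.subset_span ⟨k, rfl⟩
  have h6 := Ideal.mem_map_of_mem f h2
  rw [Ideal.map_pow] at h6
  exact Ideal.pow_right_mono h5 _ h6

end Pool.Agent.helper73.Nag
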