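import Pool.Agent.helper73.Nag.Gen2
import Pool.Agent.helper73.Nag.Bez
import Pool.Agent.helper5.NBSSesh

/-! Self-intersections of irreducible curves through very general points. -/

set_option autoImplicit false

open MvPolynomial Pool.Agent.helper5.NBS

namespace Pool.Agent.helper73.Nag

lemma eq_C_of_wdeg {U : R2} (h : wdeg 1 U = 0) : ∃ c : ℂ, U = C c := by
  refine ⟨coeff 0 U, ?_⟩
  ext n
  rw [coeff_C]
  split_ifs with hn
  · rw [hn]
  · by_contra hcon
    have h1 : n ∈ U.support := mem_support_iff.mpr hcon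
    have h2 : n 0 + 1 * n 1 ≤ wdeg 1 U := Finset.le_sup (f := fun n : Fin 2 →₀ ℕ => n 0 + 1 * n 1) h1
    apply hn
    ext i
    fin_cases i
    · simp; omega
    · simp; omega

lemma dvd_same_degree {F G : R2} (hF : F ≠ 0) (hG : G ≠ 0) (hle : wdeg 1 G ≤ wdeg 1 F)
    (h : F ∣ G) : ∃ c : ℂ, c ≠ 0 ∧ G = C c * F := by
  obtain ⟨U, rfl⟩ := h
  have hU : U ≠ 0 := by
    rintro rfl
    exact hG (mul_zero _)
  rw [wdeg_mul 1 hF hU] at hle
  obtain ⟨c, rfl⟩ := eq_C_of_wdeg (show wdeg 1 U = 0 by omega)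
  exact ⟨c, fun hc => hU (by rw [hc, map_zero]), mul_comm _ _⟩

lemma C_mul_mem_iff {p : Fin 2 → ℂ} {m : ℕ} {c : ℂ} (hc : c ≠ 0) {F : R2} :
    C c * F ∈ ptIdeal p ^ m ↔ F ∈ ptIdeal p ^ m := by
  constructor
  · intro h
    have h1 : C c⁻¹ * (C c * F) ∈ ptIdeal p ^ m := Ideal.mul_mem_left _ _ h
    rwa [← mul_assoc, ← map_mul, inv_mul_cancel₀ hc, map_one, one_mul] at h1
  · intro h
    exact Ideal.mul_mem_left _ _ h

lemma trans_pderiv (p : Fin 2 → ℂ) (k : Fin 2) (F : R2) :
    trans p (pderiv k F) = pderiv k (trans p F) := by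
  induction F using MvPolynomial.induction_on with
  | C a => simp [trans_C]
  | add f g hf hg => rw [map_add, map_add, map_add, map_add, hf, hg]
  | mul_X f i hf =>
    rw [Derivation.leibniz, map_add, smul_eq_mul, smul_eq_mul, map_mul, map_mul, map_mul,
      Derivation.leibniz, smul_eq_mul, smul_eq_mul, hf, trans_X]
    congr 2
    by_cases hik : i = k
    · subst hik
      simp
    · rw [pderiv_X_of_ne hik, map_zero, map_add, pderiv_X_of_ne hik, pderiv_C, add_zero]

lemma mem_succ_of_pderiv {p : Fin 2 → ℂ} {m : ℕ} (hm : 0 < m) {F : R2} 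
    (h : ∀ k, pderiv k F ∈ ptIdeal p ^ m) (hF : F ∈ ptIdeal p ^ m) : F ∈ ptIdeal p ^ (m + 1) := by
  rw [mem_ptIdeal_pow] at hF ⊢
  intro n hn
  rcases Nat.lt_or_ge n.degree m with h1 | h1
  · exact hF n h1
  have hnm : n.degree = m := by omega
  have hex : ∃ k, 0 < n k := by
    by_contra hcon
    push Not at hcon
    have : n = 0 := by
      ext k
      have := hcon k
      simp
      omega
    rw [this] at hnm
    simp at hnm
    omega
  obtain ⟨k, hk⟩ := hex
  have h2 := h k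
  rw [mem_ptIdeal_pow] at h2
  set n' : Fin 2 →₀ ℕ := n - Finsupp.single k 1 with hn'
  have hnn : n' + Finsupp.single k 1 = n := by
    rw [hn']
    apply tsub_add_cancel_of_le
    rw [Finsupp.single_le_iff]
    omega
  have hdeg : n'.degree < m := by
    have := congrArg Finsupp.degree hnn
    rw [map_add, Finsupp.degree_single] at this
    omega
  have h3 := h2 n' hdeg
  rw [trans_pderiv, coeff_pderiv, hnn] at h3
  have h4 : ((n' k : ℂ) + 1) ≠ 0 := by exact_mod_cast Nat.succ_ne_zero (n' k)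
  exact (mul_eq_zero.mp h3).resolve_right h4

lemma relPrime {F G : R2} (hF : Irreducible F) (h : ¬ F ∣ G) : IsRelPrime F G :=
  (hF.isRelPrime_iff_not_dvd).mpr h

lemma self_mem {r : ℕ} (p : Fin r → Fin 2 → ℂ) {F : R2} (hF : F ≠ 0) :
    F ∈ Lin (wdeg 1 F) (fun i => mult (p i) F) p :=
  ⟨le_rfl, fun i => (mem_pow_iff_le_mult hF).mpr le_rfl⟩

/-- Xu's lemma -/
theorem xu {r : ℕ} {p : Fin r → Fin 2 → ℂ} (hp : VG p) {F : R2} (hF : Irreducible F) (j : Fin r)
    (hj : 0 < mult (p j) F) :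
    ∑ i, mult (p i) F * mult (p i) F ≤ wdeg 1 F * wdeg 1 F + mult (p j) F := by
  classical
  have hF0 := hF.ne_zero
  obtain ⟨F', hF', hF'0, hder⟩ := hp.deriv (self_mem p hF0) hF0
  by_cases hdvd : F ∣ F'
  · obtain ⟨c, hc, hcF⟩ := dvd_same_degree hF0 hF'0 hF'.1 hdvd
    choose G hG1 hG2 using hder j
    have hex : ∃ k, ¬ F ∣ G k := by
      by_contra hcon
      push Not at hcon
      have h1 : ∀ k, pderiv k F ∈ ptIdeal (p j) ^ (mult (p j) F) := by
        intro k
        have h2 : G k ∈ ptIdeal (p j) ^ (mult (p j) F) := by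
          obtain ⟨U, hU⟩ := hcon k
          rw [hU]
          exact Ideal.mul_mem_right _ _ ((mem_pow_iff_le_mult hF0).mpr le_rfl)
        have h3 : pderiv k F' ∈ ptIdeal (p j) ^ (mult (p j) F) := by
          have := Ideal.sub_mem _ (hG2 k) h2
          rwa [add_sub_cancel_left] at this
        rw [hcF, pderiv_C_mul, C_mul_mem_iff hc] at h3
        exact h3
      have h4 := mem_succ_of_pderiv hj h1 ((mem_pow_iff_le_mult hF0).mpr le_rfl)
      rw [mem_pow_iff_le_mult hF0] at h4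
      omega
    obtain ⟨k, hk⟩ := hex
    have hGk0 : G k ≠ 0 := by
      intro h0
      exact hk (by rw [h0]; exact dvd_zero _)
    have h5 := bez hF0 hGk0 (relPrime hF hk) p hp.inj (fun i => mult (p i) F)
      (Function.update (fun i => mult (p i) F) j (mult (p j) F - 1))
      (fun i => (mem_pow_iff_le_mult hF0).mpr le_rfl) (hG1 k).2
    have h6 : wdeg 1 F * wdeg 1 (G k) ≤ wdeg 1 F * wdeg 1 F := Nat.mul_le_mul_left _ (hG1 k).1
    have h7 : ∑ i, mult (p i) F * mult (p i) F =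
        (∑ i, mult (p i) F * (Function.update (fun i => mult (p i) F) j (mult (p j) F - 1)) i) +
          mult (p j) F := by
      rw [← Finset.add_sum_erase _ _ (Finset.mem_univ j),
        ← Finset.add_sum_erase (a := j) _ (fun i => mult (p i) F *
          (Function.update (fun i => mult (p i) F) j (mult (p j) F - 1)) i) (Finset.mem_univ j)]
      rw [Function.update_self]
      have h8 : ∀ i ∈ Finset.univ.erase j, mult (p i) F *
          (Function.update (fun i => mult (p i) F) j (mult (p j) F - 1)) i =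
          mult (p i) F * mult (p i) F := by
        intro i hi
        rw [Function.update_of_ne (Finset.ne_of_mem_erase hi)]
      rw [Finset.sum_congr rfl h8]
      obtain ⟨a, ha⟩ : ∃ a, mult (p j) F = a + 1 := ⟨mult (p j) F - 1, by omega⟩
      rw [ha, Nat.add_sub_cancel]
      ring
    omega
  · have h5 := bez hF0 hF'0 (relPrime hF hdvd) p hp.inj (fun i => mult (p i) F)
      (fun i => mult (p i) F) (fun i => (mem_pow_iff_le_mult hF0).mpr le_rfl) hF'.2
    have h6 : wdeg 1 F * wdeg 1 F' ≤ wdeg 1 F * wdeg 1 F := Nat.mul_le_mul_left _ hF'.1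
    omega

/-- permuting the points -/
theorem permIneq {r : ℕ} {p : Fin r → Fin 2 → ℂ} (hp : VG p) {F : R2} (hF : Irreducible F)
    (σ : Equiv.Perm (Fin r)) (hσ : ∃ i, mult (p i) F ≠ mult (p (σ i)) F) :
    ∑ i, mult (p i) F * mult (p (σ i)) F ≤ wdeg 1 F * wdeg 1 F := by
  classical
  have hF0 := hF.ne_zero
  obtain ⟨G, hG, hG0⟩ := hp.perm (self_mem p hF0) hF0 σ
  have hnd : ¬ F ∣ G := by
    intro hdvd
    obtain ⟨c, hc, hcF⟩ := dvd_same_degree hF0 hG0 hG.1 hdvd
    have h1 : ∀ i, mult (p (σ i)) F ≤ mult (p i) F := by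
      intro i
      have h2 := hG.2 i
      rw [hcF, C_mul_mem_iff hc, mem_pow_iff_le_mult hF0] at h2
      exact h2
    obtain ⟨i, hi⟩ := hσ
    have h2 : ∑ i, mult (p (σ i)) F < ∑ i, mult (p i) F :=
      Finset.sum_lt_sum (fun i _ => h1 i) ⟨i, Finset.mem_univ i, lt_of_le_of_ne (h1 i) (Ne.symm hi)⟩
    have h3 : ∑ i, mult (p (σ i)) F = ∑ i, mult (p i) F :=
      Equiv.sum_comp σ (fun i => mult (p i) F)
    omega
  have h5 := bez hF0 hG0 (relPrime hF hnd) p hp.inj (fun i => mult (p i) F)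
    (fun i => mult (p (σ i)) F) (fun i => (mem_pow_iff_le_mult hF0).mpr le_rfl) hG.2
  have h6 : wdeg 1 F * wdeg 1 G ≤ wdeg 1 F * wdeg 1 F := Nat.mul_le_mul_left _ hG.1
  omega

/-- exchanging two points -/
theorem swapIneq {r : ℕ} {p : Fin r → Fin 2 → ℂ} (hp : VG p) {F : R2} (hF : Irreducible F)
    {i j : Fin r} (hij : mult (p i) F ≠ mult (p j) F) :
    (∑ k, (mult (p k) F : ℤ) ^ 2) - ((mult (p i) F : ℤ) - mult (p j) F) ^ 2 ≤
      (wdeg 1 F : ℤ) ^ 2 := by
  classical
  have hne : i ≠ j := fun h => hij (by rw [h])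
  have h := permIneq hp hF (Equiv.swap i j) ⟨i, by rw [Equiv.swap_apply_left]; exact hij⟩
  have h1 : ((∑ k, mult (p k) F * mult (p (Equiv.swap i j k)) F : ℕ) : ℤ) =
      (∑ k, (mult (p k) F : ℤ) ^ 2) - ((mult (p i) F : ℤ) - mult (p j) F) ^ 2 := by
    push_cast
    have hj : j ∈ Finset.univ.erase i := Finset.mem_erase.mpr ⟨hne.symm, Finset.mem_univ j⟩
    rw [← Finset.add_sum_erase _ _ (Finset.mem_univ i), ← Finset.add_sum_erase _ _ hj,
      ← Finset.add_sum_erase Finset.univ (fun k => (mult (p k) F : ℤ) ^ 2) (Finset.mem_univ i),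
      ← Finset.add_sum_erase (Finset.univ.erase i) (fun k => (mult (p k) F : ℤ) ^ 2) hj,
      Equiv.swap_apply_left, Equiv.swap_apply_right]
    have h8 : ∀ k ∈ (Finset.univ.erase i).erase j,
        (mult (p k) F : ℤ) * mult (p (Equiv.swap i j k)) F = (mult (p k) F : ℤ) ^ 2 := by
      intro k hk
      have h9 := Finset.ne_of_mem_erase hk
      have h10 := Finset.ne_of_mem_erase (Finset.mem_of_mem_erase hk)
      rw [Equiv.swap_apply_of_ne_of_ne h10 h9]
      ring
    rw [Finset.sum_congr rfl h8]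
    ring
  rw [← h1]
  have : ((wdeg 1 F : ℤ)) ^ 2 = ((wdeg 1 F * wdeg 1 F : ℕ) : ℤ) := by push_cast; ring
  rw [this]
  exact_mod_cast h

end Pool.Agent.helper73.Nag
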